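import Pool.Agent.W920.HQ.Defs

/-!
# Hybrid programs with a quantum memory of dimension `M` between the calls

The register of a subroutine consists of `q` query positions, a workspace and the memory.  The
subroutine starts with the memory state `ρ` (a density matrix) and the rest of the register in a
basis state, applies `T` layers of `q` parallel phase queries interleaved with arbitrary unitaries
on the whole register (memory included), and measures everything except the memory; the outcome
(one of `c` classes of basis states) is recorded, the rest is forgotten and the memory is kept.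
-/

set_option autoImplicit false

namespace Pool.Agent.W920.HM

open Finset Matrix Pool.Agent.W920.HQ

/-- The operator applied by a subroutine to the whole register on the oracle string `x`. -/
noncomputable def tot {N T q m M : ℕ} (W : Fin T → Finset (Fin N))
    (U : Fin (T + 1) → Matrix.unitaryGroup (Bas N q m × Fin M) ℂ)
    (x : Fin N → Bool) : Matrix (Bas N q m × Fin M) (Bas N q m × Fin M) ℂ :=
  (List.ofFn (fun k : Fin T =>
      (U k.succ).1 *
        Matrix.diagonal (fun b : Bas N q m × Fin M =>
          ∏ j : Fin q, Option.elim (b.1.1 j) (1 : ℂ)
            (fun i => if i ∈ W k ∧ x i then -1 else 1)))).reverse.prod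
      * (U 0).1

/-- The operator on the memory which belongs to the outcome `s` of the final measurement. -/
noncomputable def kr {N T q m M : ℕ} (W : Fin T → Finset (Fin N))
    (U : Fin (T + 1) → Matrix.unitaryGroup (Bas N q m × Fin M) ℂ) (s₀ : Bas N q m)
    (x : Fin N → Bool) (s : Bas N q m) : Matrix (Fin M) (Fin M) ℂ :=
  Matrix.of fun μ' μ => tot W U x (s, μ') (s₀, μ)

/-- Hybrid programs with a quantum memory of dimension `M`. -/
inductive MProg (N T q r c M : ℕ) : Type
  | halt (b : Bool) : MProg N T q r c M
  | call (m : ℕ) (W : Fin T → Finset (Fin N))
      (hW : ∀ i : Fin N, (Finset.univ.filter (fun k : Fin T => i ∈ W k)).card ≤ r)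
      (U : Fin (T + 1) → Matrix.unitaryGroup (Bas N q m × Fin M) ℂ) (s₀ : Bas N q m)
      (out : Bas N q m → Fin c) (next : Fin c → MProg N T q r c M) : MProg N T q r c M

namespace MProg

variable {N T q r c M : ℕ}

/-- The probability of the output `true` on the oracle string `x` from the memory state `ρ`. -/
noncomputable def prob (x : Fin N → Bool) : MProg N T q r c M → Matrix (Fin M) (Fin M) ℂ → ℂ
  | halt b, ρ => if b then ρ.trace else 0
  | call _ W _ U s₀ out next, ρ =>
      ∑ s, prob x (next (out s)) (kr W U s₀ x s * ρ * (kr W U s₀ x s)ᴴ)

/-- The largest number of calls along a run. -/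
def calls : MProg N T q r c M → ℕ
  | halt _ => 0
  | call _ _ _ _ _ _ next => Finset.univ.sup (fun j => calls (next j)) + 1

end MProg

end Pool.Agent.W920.HM
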