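import Pool.Agent.W920.HM.Stm

set_option autoImplicit false

namespace Pool.Agent.W920.HM

open Finset Pool.Agent.H572R2 Pool.Agent.W920.HQ

theorem t_afin1 (h1 : Pool.Agent.W920.HQ.S_fixl) : S_afin1 := by
  intro N T q r c L hT hq hr hc hL p hsim V hV0 hV
  have hp0 : ∀ x, 0 ≤ p x := fun x => (hsim.1 x).1
  have hp1 : ∀ x, p x ≤ 1 := fun x => (hsim.1 x).2
  set mu : ℝ := EE p with hmu
  have hmu0 : 0 ≤ mu := EE_nonneg hp0
  have hmu1 : mu ≤ 1 := (EE_mono hp1).trans (le_of_eq (EE_const 1))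
  have hdif : ∀ x, |p x - mu| ≤ 1 := by
    intro x
    have a0 := hp0 x
    have a1 := hp1 x
    rw [abs_le]
    constructor
    · show -1 ≤ p x - mu
      linarith
    · show p x - mu ≤ 1
      linarith
  have hV1 : V ≤ 1 := by
    rw [hV]
    refine (EE_mono (g := fun _ => (1 : ℝ)) ?_).trans (le_of_eq (EE_const 1))
    intro x
    have := hdif x
    have h3 : |p x - mu| ^ 2 ≤ 1 := by
      have := abs_nonneg (p x - mu)
      nlinarith
    rw [sq_abs] at h3
    exact h3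
  have hT1 : (1 : ℝ) ≤ T := by exact_mod_cast hT
  have hq1 : (1 : ℝ) ≤ q := by exact_mod_cast hq
  have hr1 : (1 : ℝ) ≤ r := by exact_mod_cast hr
  have hc1 : (1 : ℝ) ≤ c := by exact_mod_cast hc
  have hL1 : (1 : ℝ) ≤ L := by exact_mod_cast hL
  set K : ℝ := 320 * (r : ℝ) ^ 4 * (T : ℝ) ^ 2 * q with hK
  have hK1 : 1 ≤ K := by
    have e1 : (1 : ℝ) ≤ (r : ℝ) ^ 4 := one_le_pow₀ hr1
    have e2 : (1 : ℝ) ≤ (T : ℝ) ^ 2 := one_le_pow₀ hT1
    calc (1 : ℝ) ≤ 320 * 1 * 1 * 1 := by norm_num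
      _ ≤ _ := by rw [hK]; gcongr
  have hK0 : 0 < K := by linarith
  have hKr : 1 ≤ K ^ r := one_le_pow₀ hK1
  set D : ℝ := 144 * (r : ℝ) * (T : ℝ) ^ 2 * (q : ℝ) ^ 2 * K ^ r with hD
  have hD1 : 1 ≤ D := by
    have e2 : (1 : ℝ) ≤ (T : ℝ) ^ 2 := one_le_pow₀ hT1
    have e3 : (1 : ℝ) ≤ (q : ℝ) ^ 2 := one_le_pow₀ hq1
    calc (1 : ℝ) ≤ 144 * 1 * 1 * 1 * 1 := by norm_num
      _ ≤ D := by rw [hD]; gcongr
  have hD0 : 0 < D := by linarith
  have hT0 : (0 : ℝ) < T := by linarith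
  have hq0 : (0 : ℝ) < q := by linarith
  have hr0 : (0 : ℝ) < r := by linarith
  have hc0 : (0 : ℝ) < c := by linarith
  have hL0 : (0 : ℝ) < L := by linarith
  set e : ℝ := V / (4 * L * c) with he
  have he0 : 0 < e := by rw [he]; positivity
  have he1 : e ≤ 1 := by
    rw [he, div_le_one (by positivity)]
    calc V ≤ 1 := hV1
      _ ≤ 4 * 1 * 1 := by norm_num
      _ ≤ 4 * (L : ℝ) * c := by gcongr
  set b : ℝ := e ^ 2 / D with hb
  have hb0 : 0 < b := by rw [hb]; positivity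
  have hb1 : b ≤ 1 := by
    rw [hb, div_le_one hD0]
    have : e ^ 2 ≤ 1 := by nlinarith
    linarith
  obtain ⟨k, t, htok, htc, hte⟩ := hsim.2 b hb0 hb1 ∅ (fun _ => true)
  rw [Ex_empty] at htc hte
  have hDb : Real.sqrt (144 * (r : ℝ) * (T : ℝ) ^ 2 * (q : ℝ) ^ 2 * (320 * (r : ℝ) ^ 4 * (T : ℝ) ^ 2 * q) ^ r * b) = e := by
    have : 144 * (r : ℝ) * (T : ℝ) ^ 2 * (q : ℝ) ^ 2 * (320 * (r : ℝ) ^ 4 * (T : ℝ) ^ 2 * q) ^ r * b = e ^ 2 := by
      rw [← hK, ← hD, hb]
      field_simp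
    rw [this]
    exact Real.sqrt_sq he0.le
  rw [hDb] at hte
  have herr : EE (fun x => |p x - t.ev x|) ≤ V / 4 := by
    refine hte.trans (le_of_eq ?_)
    rw [he]; field_simp
  set Ct : ℝ := L * (T * q / b ^ 2) with hCt
  have hCt0 : 0 < Ct := by rw [hCt]; positivity
  have hcost : EE t.cost ≤ Ct := htc
  have hbound : 4 * Ct / V = 21233664 * (L : ℝ) ^ 5 * (c : ℝ) ^ 4 * (r : ℝ) ^ 2 * ((T : ℝ) * q) ^ 5
        * (320 * (r : ℝ) ^ 4 * (T : ℝ) ^ 2 * q) ^ (2 * r) / V ^ 5 := by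
    rw [← hK, hCt, hb, he, hD, pow_mul' K 2 r]
    have hKr0 : 0 < K ^ r := by linarith
    field_simp
    ring
  by_contra hcon
  push Not at hcon
  set l : ℝ := V / (4 * Ct) with hl
  have hl0 : 0 < l := by rw [hl]; positivity
  have hdev : ∀ (S : Finset (Fin N)) (a : Fin N → Bool), Ex S a p - mu ≤ V / 4 + l * S.card := by
    intro S a
    by_cases hS : (S.card : ℝ) ≤ 4 * Ct / V
    · have h3 := hcon S a (by rw [hbound] at hS; exact hS)
      have h4 : 0 ≤ l * (S.card : ℝ) := by positivity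
      have h5 : Ex S a p - mu < V / 4 := h3
      linarith
    · rw [not_le] at hS
      have h3 : 1 ≤ l * (S.card : ℝ) := by
        have h4 : l * (4 * Ct / V) = 1 := by
          rw [hl]; field_simp
        have h5 : l * (4 * Ct / V) ≤ l * (S.card : ℝ) := mul_le_mul_of_nonneg_left hS.le hl0.le
        linarith
      have h6 : Ex S a p ≤ 1 := by
        unfold Ex
        refine (EE_mono (g := fun _ => (1 : ℝ)) ?_).trans (le_of_eq (EE_const 1))
        intro x
        exact hp1 _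
      linarith
  have hfix := h1 N k p mu (V / 4) l (by positivity) hl0.le hdev t htok ∅ (fun _ => true)
  rw [Ex_empty, Ex_empty, Finset.card_empty] at hfix
  have hup : EE (fun x => (p x - mu) * t.ev x) ≤ V / 2 := by
    have h3 : l * Ct = V / 4 := by rw [hl]; field_simp
    have h4 : l * EE t.cost ≤ l * Ct := mul_le_mul_of_nonneg_left hcost hl0.le
    have h5 : l * (((0 : ℕ) : ℝ) + EE t.cost) = l * EE t.cost := by simp
    rw [h5] at hfix
    linarith
  have hlow : 3 * V / 4 ≤ EE (fun x => (p x - mu) * t.ev x) := by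
    have h3 : EE (fun x => (p x - mu) * p x) = V := by
      have h4 : ∀ x, (p x - mu) * p x = (p x - mu) ^ 2 + mu * (p x - mu) := by intro x; ring
      rw [EE_congr h4, EE_add, EE_mul, EE_sub, EE_const, ← hmu, sub_self, mul_zero, add_zero]
      exact hV.symm
    have h5 : EE (fun x => (p x - mu) * p x) - EE (fun x => (p x - mu) * t.ev x) ≤ V / 4 := by
      rw [← EE_sub]
      refine le_trans (EE_mono ?_) herr
      intro x
      have h6 : (p x - mu) * p x - (p x - mu) * t.ev x = (p x - mu) * (p x - t.ev x) := by ring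
      rw [h6]
      refine (le_abs_self _).trans ?_
      rw [abs_mul]
      exact mul_le_of_le_one_left (abs_nonneg _) (hdif x)
    linarith
  linarith

end Pool.Agent.W920.HM

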