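import Pool.Agent.W920.HM.Stm

/-!
Project HM: the final influence statement `S_afin2` from the OSSS inequality, for functions
simulated by randomised decision trees.
-/

set_option autoImplicit false

namespace Pool.Agent.W920.HM

open Finset Pool.Agent.H572R2 Pool.Agent.W920.HQ

theorem t_afin2 (h1 : Pool.Agent.W920.HQ.S_osss) : S_afin2 := by
  intro N T q r c L hT hq hr hc hL p hS V hV0 hV
  obtain ⟨hp01, h2⟩ := hS
  have hp0 : ∀ x, 0 ≤ p x := fun x => (hp01 x).1
  have hp1 : ∀ x, p x ≤ 1 := fun x => (hp01 x).2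
  have hV1 : V ≤ 1 := by rw [hV]; exact var_le_one p hp0 hp1
  have hT1 : (1 : ℝ) ≤ T := by exact_mod_cast hT
  have hq1 : (1 : ℝ) ≤ q := by exact_mod_cast hq
  have hr1 : (1 : ℝ) ≤ r := by exact_mod_cast hr
  have hc1 : (1 : ℝ) ≤ c := by exact_mod_cast hc
  have hL1 : (1 : ℝ) ≤ L := by exact_mod_cast hL
  have hK1 : (1 : ℝ) ≤ 320 * (r : ℝ) ^ 4 * T ^ 2 * q := by
    have e1 : (1 : ℝ) ≤ (r : ℝ) ^ 4 := one_le_pow₀ hr1
    have e2 : (1 : ℝ) ≤ (T : ℝ) ^ 2 := one_le_pow₀ hT1
    calc (1 : ℝ) ≤ 320 * 1 * 1 * 1 := by norm_num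
      _ ≤ _ := by gcongr
  set K : ℝ := 320 * (r : ℝ) ^ 4 * T ^ 2 * q with hK
  have hKr : 1 ≤ K ^ r := one_le_pow₀ hK1
  set D : ℝ := 144 * r * T ^ 2 * q ^ 2 * K ^ r with hD
  have hD1 : 1 ≤ D := by
    have e2 : (1 : ℝ) ≤ (T : ℝ) ^ 2 := one_le_pow₀ hT1
    have e3 : (1 : ℝ) ≤ (q : ℝ) ^ 2 := one_le_pow₀ hq1
    calc (1 : ℝ) ≤ 144 * 1 * 1 * 1 * 1 := by norm_num
      _ ≤ D := by rw [hD]; gcongr
  have hD0 : 0 < D := by linarith
  have hK0 : 0 < K := by linarith
  have hT0 : (0 : ℝ) < T := by linarith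
  have hq0 : (0 : ℝ) < q := by linarith
  have hr0 : (0 : ℝ) < r := by linarith
  have hc0 : (0 : ℝ) < c := by linarith
  have hL0 : (0 : ℝ) < L := by linarith
  set eps : ℝ := V / (4 * L * c) with heps
  have heps0 : 0 < eps := by positivity
  have heps1 : eps ≤ 1 := by
    rw [heps, div_le_one (by positivity)]
    calc V ≤ 1 * 1 * 1 := by linarith
      _ ≤ 4 * L * c := by gcongr; norm_num
  set b : ℝ := eps ^ 2 / D with hb
  have hb0 : 0 < b := by positivity
  have hb1 : b ≤ 1 := by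
    rw [hb, div_le_one hD0]
    calc eps ^ 2 ≤ 1 := pow_le_one₀ heps0.le heps1
      _ ≤ D := hD1
  obtain ⟨k, t, tok, tcost, terr⟩ := h2 b hb0 hb1 ∅ (fun _ => true)
  rw [Ex_empty] at tcost terr
  have hsq : Real.sqrt (144 * r * T ^ 2 * q ^ 2 * (320 * r ^ 4 * T ^ 2 * q) ^ r * b) = eps := by
    have : (144 * r * T ^ 2 * q ^ 2 * (320 * r ^ 4 * T ^ 2 * q) ^ r * b : ℝ) = eps ^ 2 := by
      show D * b = eps ^ 2
      rw [hb]; field_simp
    rw [this]
    exact Real.sqrt_sq heps0.le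
  rw [hsq] at terr
  have terr' : EE (fun x => |p x - t.ev x|) ≤ V / 4 := by
    refine terr.trans ?_
    calc (L : ℝ) * (c * eps) = V / 4 := by rw [heps]; field_simp
      _ ≤ V / 4 := le_rfl
  set Ct : ℝ := 5308416 * L ^ 5 * c ^ 4 * r ^ 2 * (T * q) ^ 5 * K ^ (2 * r) / V ^ 4 with hCt
  have hCt0 : 0 < Ct := by positivity
  have tcost' : EE t.cost ≤ Ct := by
    refine tcost.trans ?_
    calc (L : ℝ) * (T * q / b ^ 2) = Ct := by
          rw [hCt, hb, heps, hD]
          field_simp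
          ring
      _ ≤ Ct := le_rfl
  set lam0 : ℝ := V ^ 5 / (7077888 * L ^ 5 * c ^ 4 * r ^ 2 * (T * q) ^ 5
        * (320 * r ^ 4 * T ^ 2 * q) ^ (2 * r)) with hlam0
  have hlam0eq : lam0 = 3 * V / (4 * Ct) := by
    show V ^ 5 / (7077888 * L ^ 5 * c ^ 4 * r ^ 2 * (T * q) ^ 5 * K ^ (2 * r)) = _
    rw [hCt]
    field_simp
    ring
  have hlam0pos : 0 < lam0 := by rw [hlam0eq]; positivity
  by_contra hcon
  push Not at hcon
  have hL1 : ∀ i, EE (fun x => |p x - p (flp i x)|) < 2 * lam0 := by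
    intro i
    have h1 := EE_cs (fun x => |(p x - p (flp i x)) / 2|) (fun _ => (1 : ℝ))
    have h2 : EE (fun x => |(p x - p (flp i x)) / 2| ^ 2)
        = EE (fun x => ((p x - p (flp i x)) / 2) ^ 2) := by
      apply EE_congr; intro x; rw [sq_abs]
    have h3 : EE (fun _ : Fin N → Bool => (1 : ℝ) ^ 2) = 1 := by
      rw [EE_const]; norm_num
    have h4 : EE (fun x => |(p x - p (flp i x)) / 2| * 1)
        = (1 / 2) * EE (fun x => |p x - p (flp i x)|) := by
      rw [← EE_mul]; apply EE_congr; intro x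
      rw [abs_div]
      have : |(2 : ℝ)| = 2 := by norm_num
      rw [this]; ring
    rw [h2, h3, h4, mul_one] at h1
    have h5 := h1.trans_lt (hcon i)
    have h6 : 1 / 2 * EE (fun x => |p x - p (flp i x)|) < lam0 := by
      by_contra hc
      push Not at hc
      have : lam0 ^ 2 ≤ (1 / 2 * EE (fun x => |p x - p (flp i x)|)) ^ 2 :=
        pow_le_pow_left₀ hlam0pos.le hc 2
      linarith
    linarith
  obtain ⟨lam, hlam, hlamlt, hlamb⟩ : ∃ lam : ℝ, 0 ≤ lam ∧ lam < lam0 ∧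
      ∀ i, EE (fun x => |p x - p (flp i x)|) ≤ 2 * lam := by
    rcases isEmpty_or_nonempty (Fin N) with he | hne
    · exact ⟨0, le_rfl, hlam0pos, fun i => (he.false i).elim⟩
    · obtain ⟨i0, hi0⟩ := Finite.exists_max (fun i => EE (fun x => |p x - p (flp i x)|))
      refine ⟨EE (fun x => |p x - p (flp i0 x)|) / 2, ?_, ?_, fun i => ?_⟩
      · exact div_nonneg (EE_nonneg fun x => abs_nonneg _) (by norm_num)
      · have := hL1 i0
        linarith
      · have := hi0 i
        linarith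
  have hg := h1 N k p lam hlamb hlam t tok ∅ (fun _ => true)
  have hEA : ∀ x, EA ∅ p x = p x := by
    intro x
    unfold EA
    simp only [mix_empty]
    exact EE_const _
  simp only [hEA, mix_empty] at hg
  have hcov : EE (fun x => p x * t.ev x) - EE p * EE (fun x => t.ev x) ≤ lam * Ct := by
    refine (le_abs_self _).trans (hg.trans ?_)
    gcongr
  have hid : V = EE (fun x => (p x - EE p) * (p x - t.ev x))
      + (EE (fun x => p x * t.ev x) - EE p * EE (fun x => t.ev x)) := by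
    have h1 : EE (fun x => (p x - EE p) ^ 2)
        = EE (fun x => ((p x - EE p) * (p x - t.ev x) + (p x * t.ev x - EE p * t.ev x))
          - (EE p * p x - EE p * EE p)) := by
      apply EE_congr; intro x; ring
    have hV' : V = EE (fun x => (p x - EE p) ^ 2) := hV
    rw [hV', h1, EE_sub, EE_add, EE_sub, EE_sub, EE_mul, EE_mul, EE_const]
    ring
  have e0 : 0 ≤ EE p := EE_nonneg hp0
  have e1 : EE p ≤ 1 := (EE_mono hp1).trans (le_of_eq (EE_const 1))
  have hdiff : EE (fun x => (p x - EE p) * (p x - t.ev x)) ≤ V / 4 := by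
    refine (EE_mono (g := fun x => |p x - t.ev x|) ?_).trans terr'
    intro x
    have a1 : |p x - EE p| ≤ 1 := by
      rw [abs_le]
      have := hp0 x
      have := hp1 x
      constructor <;> linarith
    calc (p x - EE p) * (p x - t.ev x) ≤ |(p x - EE p) * (p x - t.ev x)| := le_abs_self _
      _ = |p x - EE p| * |p x - t.ev x| := abs_mul _ _
      _ ≤ 1 * |p x - t.ev x| := by gcongr
      _ = |p x - t.ev x| := one_mul _
  have h3 : 3 * V / 4 ≤ lam * Ct := by linarith
  have h4 : lam * Ct < 3 * V / 4 := by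
    calc lam * Ct < lam0 * Ct := by gcongr
      _ = 3 * V / 4 := by rw [hlam0eq]; field_simp
  linarith

end Pool.Agent.W920.HM
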