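import Pool.Agent.W920.HM.Stm

set_option autoImplicit false

namespace Pool.Agent.W920.HM

open Finset Matrix Pool.Agent.H572R2 Pool.Agent.W920.HQ
open scoped ComplexOrder MatrixOrder

namespace TEFF

theorem diag_mem {N T q m M : ℕ} (W : Fin T → Finset (Fin N)) (x : Fin N → Bool) (k : Fin T) :
    Matrix.diagonal (fun b : Bas N q m × Fin M =>
          ∏ j : Fin q, Option.elim (b.1.1 j) (1 : ℂ)
            (fun i => if i ∈ W k ∧ x i then -1 else 1)) ∈ Matrix.unitaryGroup (Bas N q m × Fin M) ℂ := by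
  rw [Matrix.mem_unitaryGroup_iff, Matrix.star_eq_conjTranspose, Matrix.diagonal_conjTranspose,
    Matrix.diagonal_mul_diagonal, ← Matrix.diagonal_one]
  congr 1
  funext b
  have hn : ‖∏ j : Fin q, Option.elim (b.1.1 j) (1 : ℂ)
            (fun i => if i ∈ W k ∧ x i then -1 else 1)‖ = 1 := by
    rw [norm_prod]
    apply Finset.prod_eq_one
    intro j _
    cases h : b.1.1 j with
    | none => simp
    | some i =>
      simp only [Option.elim]
      split_ifs <;> simp
  rw [Pi.star_apply]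
  have h2 := Complex.mul_conj' (∏ j : Fin q, Option.elim (b.1.1 j) (1 : ℂ)
            (fun i => if i ∈ W k ∧ x i then -1 else 1))
  rw [hn] at h2
  simpa using h2

theorem tot_mem {N T q m M : ℕ} (W : Fin T → Finset (Fin N))
    (U : Fin (T + 1) → Matrix.unitaryGroup (Bas N q m × Fin M) ℂ) (x : Fin N → Bool) :
    tot W U x ∈ Matrix.unitaryGroup (Bas N q m × Fin M) ℂ := by
  unfold tot
  apply mul_mem _ (U 0).2
  apply list_prod_mem
  intro A hA
  rw [List.mem_reverse, List.mem_ofFn] at hA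
  obtain ⟨k, rfl⟩ := hA
  exact mul_mem (U k.succ).2 (diag_mem W x k)

/-- the outcome operators resolve the identity -/
theorem kr_sum {N T q m M : ℕ} (W : Fin T → Finset (Fin N))
    (U : Fin (T + 1) → Matrix.unitaryGroup (Bas N q m × Fin M) ℂ) (s₀ : Bas N q m)
    (x : Fin N → Bool) : ∑ s, (kr W U s₀ x s)ᴴ * kr W U s₀ x s = 1 := by
  have h1 : star (tot W U x) * tot W U x = 1 := Matrix.mem_unitaryGroup_iff'.1 (tot_mem W U x)
  ext μ ν
  have h2 : (star (tot W U x) * tot W U x) (s₀, μ) (s₀, ν) = (1 : Matrix (Bas N q m × Fin M) (Bas N q m × Fin M) ℂ) (s₀, μ) (s₀, ν) := by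
    rw [h1]
  rw [Matrix.mul_apply, Fintype.sum_prod_type] at h2
  rw [Matrix.sum_apply]
  have h3 : (1 : Matrix (Bas N q m × Fin M) (Bas N q m × Fin M) ℂ) (s₀, μ) (s₀, ν)
      = (1 : Matrix (Fin M) (Fin M) ℂ) μ ν := by
    rw [Matrix.one_apply, Matrix.one_apply]
    by_cases h : μ = ν
    · rw [if_pos h, if_pos (by rw [h])]
    · rw [if_neg h, if_neg (fun h' => h (Prod.mk.inj h').2)]
  rw [← h3, ← h2]
  refine Finset.sum_congr rfl fun s _ => ?_
  rw [Matrix.mul_apply]
  rfl

/-- the effect operator of a program -/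
noncomputable def eff {N T q r c M : ℕ} (x : Fin N → Bool) : MProg N T q r c M → Matrix (Fin M) (Fin M) ℂ
  | .halt b => if b then 1 else 0
  | .call _ W _ U s₀ out next => ∑ s, (kr W U s₀ x s)ᴴ * eff x (next (out s)) * kr W U s₀ x s

theorem prob_eq {N T q r c M : ℕ} (P : MProg N T q r c M) (x : Fin N → Bool) (A : Matrix (Fin M) (Fin M) ℂ) :
    P.prob x A = (eff x P * A).trace := by
  induction P generalizing A with
  | halt b => cases b <;> simp [MProg.prob, eff]
  | call m W hW U s₀ out next ih =>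
    unfold MProg.prob eff
    rw [Finset.sum_mul, Matrix.trace_sum]
    refine Finset.sum_congr rfl fun s _ => ?_
    rw [ih]
    rw [← Matrix.mul_assoc, ← Matrix.mul_assoc, Matrix.trace_mul_comm]
    simp only [Matrix.mul_assoc]

theorem eff_psd {N T q r c M : ℕ} (P : MProg N T q r c M) (x : Fin N → Bool) :
    (eff x P).PosSemidef := by
  induction P with
  | halt b =>
    cases b
    · simpa [eff] using (Matrix.PosSemidef.zero : (0 : Matrix (Fin M) (Fin M) ℂ).PosSemidef)
    · simpa [eff] using (Matrix.PosSemidef.one : (1 : Matrix (Fin M) (Fin M) ℂ).PosSemidef)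
  | call m W hW U s₀ out next ih =>
    unfold eff
    apply Matrix.posSemidef_sum
    intro s _
    exact (ih (out s)).conjTranspose_mul_mul_same _

theorem one_sub_eff_psd {N T q r c M : ℕ} (P : MProg N T q r c M) (x : Fin N → Bool) :
    (1 - eff x P).PosSemidef := by
  induction P with
  | halt b =>
    cases b
    · simpa [eff] using (Matrix.PosSemidef.one : (1 : Matrix (Fin M) (Fin M) ℂ).PosSemidef)
    · simpa [eff] using (Matrix.PosSemidef.zero : (0 : Matrix (Fin M) (Fin M) ℂ).PosSemidef)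
  | call m W hW U s₀ out next ih =>
    have h : (1 : Matrix (Fin M) (Fin M) ℂ) - eff x (.call m W hW U s₀ out next)
        = ∑ s, (kr W U s₀ x s)ᴴ * (1 - eff x (next (out s))) * kr W U s₀ x s := by
      have he : eff x (.call m W hW U s₀ out next)
          = ∑ s, (kr W U s₀ x s)ᴴ * eff x (next (out s)) * kr W U s₀ x s := rfl
      have h1 : ∀ s, (kr W U s₀ x s)ᴴ * (1 - eff x (next (out s))) * kr W U s₀ x s
          = (kr W U s₀ x s)ᴴ * kr W U s₀ x s - (kr W U s₀ x s)ᴴ * eff x (next (out s)) * kr W U s₀ x s := by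
        intro s
        rw [Matrix.mul_sub, Matrix.sub_mul, Matrix.mul_one]
      rw [he, Finset.sum_congr rfl (fun s _ => h1 s), Finset.sum_sub_distrib, kr_sum W U s₀ x]
    rw [h]
    apply Matrix.posSemidef_sum
    intro s _
    exact (ih (out s)).conjTranspose_mul_mul_same _

theorem trace_nonneg' {M : ℕ} (G ρ : Matrix (Fin M) (Fin M) ℂ) (hG : G.PosSemidef) (hρ : ρ.PosSemidef) :
    0 ≤ (G * ρ).trace := by
  obtain ⟨B, hB⟩ := CStarAlgebra.nonneg_iff_eq_star_mul_self.mp hρ.nonneg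
  rw [Matrix.star_eq_conjTranspose] at hB
  have h : (G * ρ).trace = (B * G * Bᴴ).trace := by
    rw [hB, ← Matrix.mul_assoc, Matrix.trace_mul_comm, ← Matrix.mul_assoc]
  rw [h]
  exact (hG.mul_mul_conjTranspose_same B).trace_nonneg

theorem entry_le {M : ℕ} (G : Matrix (Fin M) (Fin M) ℂ) (hG : G.PosSemidef) (hG' : (1 - G).PosSemidef)
    (μ ν : Fin M) : ‖G μ ν‖ ≤ 1 := by
  obtain ⟨C, hC⟩ := CStarAlgebra.nonneg_iff_eq_star_mul_self.mp hG.nonneg
  rw [Matrix.star_eq_conjTranspose] at hC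
  have hent : ∀ a b : Fin M, G a b = ∑ k, (starRingEnd ℂ) (C k a) * C k b := by
    intro a b
    rw [hC, Matrix.mul_apply]
    rfl
  have hdiag : ∀ a : Fin M, ∑ k, ‖C k a‖ ^ 2 ≤ 1 := by
    intro a
    have h1 : 0 ≤ (1 - G) a a := hG'.diag_nonneg
    have h2 : G a a = ((∑ k, ‖C k a‖ ^ 2 : ℝ) : ℂ) := by
      rw [hent, Complex.ofReal_sum]
      refine Finset.sum_congr rfl fun k _ => ?_
      rw [Complex.conj_mul']
      push_cast
      rfl
    rw [Matrix.sub_apply, Matrix.one_apply_eq, h2] at h1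
    have h3 := (Complex.le_def.1 h1).1
    simp only [Complex.zero_re, Complex.sub_re, Complex.one_re, Complex.ofReal_re] at h3
    linarith
  rw [hent]
  calc ‖∑ k, (starRingEnd ℂ) (C k μ) * C k ν‖ ≤ ∑ k, ‖(starRingEnd ℂ) (C k μ) * C k ν‖ := norm_sum_le _ _
    _ ≤ ∑ k, (‖C k μ‖ ^ 2 + ‖C k ν‖ ^ 2) / 2 := by
        refine Finset.sum_le_sum fun k _ => ?_
        rw [norm_mul, RCLike.norm_conj]
        nlinarith [sq_nonneg (‖C k μ‖ - ‖C k ν‖)]
    _ = (∑ k, ‖C k μ‖ ^ 2 + ∑ k, ‖C k ν‖ ^ 2) / 2 := by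
        rw [← Finset.sum_add_distrib, Finset.sum_div]
    _ ≤ 1 := by
        have := hdiag μ
        have := hdiag ν
        linarith

end TEFF

open TEFF

theorem t_eff : S_eff := by
  intro N T q r c M P x
  refine ⟨fun A => ?_, fun A B => ?_, fun z A => ?_, fun ρ hρ => ?_⟩
  · rw [prob_eq]
    have h1 : (eff x P * A).trace = ∑ ν, ∑ μ, eff x P ν μ * A μ ν := by
      rw [Matrix.trace]
      refine Finset.sum_congr rfl fun ν _ => ?_
      rw [Matrix.diag_apply, Matrix.mul_apply]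
    rw [h1, Finset.sum_comm]
    refine (norm_sum_le _ _).trans (Finset.sum_le_sum fun μ _ => ?_)
    refine (norm_sum_le _ _).trans (Finset.sum_le_sum fun ν _ => ?_)
    rw [norm_mul]
    have h2 := entry_le (eff x P) (eff_psd P x) (one_sub_eff_psd P x) ν μ
    calc ‖eff x P ν μ‖ * ‖A μ ν‖ ≤ 1 * ‖A μ ν‖ := mul_le_mul_of_nonneg_right h2 (norm_nonneg _)
      _ = ‖A μ ν‖ := one_mul _
  · rw [prob_eq, prob_eq, prob_eq, Matrix.mul_add, Matrix.trace_add]
  · rw [prob_eq, prob_eq, Matrix.mul_smul, Matrix.trace_smul, smul_eq_mul]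
  · have h1 := trace_nonneg' (eff x P) ρ (eff_psd P x) hρ
    have h2 := trace_nonneg' (1 - eff x P) ρ (one_sub_eff_psd P x) hρ
    rw [← prob_eq] at h1
    rw [Matrix.sub_mul, Matrix.one_mul, Matrix.trace_sub, ← prob_eq] at h2
    have h3 := Complex.le_def.1 h1
    have h4 := Complex.le_def.1 h2
    simp only [Complex.zero_re, Complex.zero_im, Complex.sub_re] at h3 h4
    exact ⟨h3.1, h3.2.symm, by linarith [h4.1]⟩

theorem t_tpr : S_tpr := by
  intro N T q m M W U s₀ ρ x
  rw [Matrix.trace_sum]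
  have h : ∀ s, (kr W U s₀ x s * ρ * (kr W U s₀ x s)ᴴ).trace = ((kr W U s₀ x s)ᴴ * kr W U s₀ x s * ρ).trace := by
    intro s
    rw [Matrix.trace_mul_comm, ← Matrix.mul_assoc]
  simp only [h]
  rw [← Matrix.trace_sum, ← Finset.sum_mul, kr_sum, Matrix.one_mul]

end Pool.Agent.W920.HM
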