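import Pool.Agent.W920.HM.Stm

/-!
# The evolutions attached to a call from a purified memory state
-/

set_option autoImplicit false

namespace Pool.Agent.W920.HM

namespace EVM327

open Finset Matrix Pool.Agent.H572R2 Pool.Agent.W920.HQ

lemma lay_congr {B : Type*} [Fintype B] [DecidableEq B] (A A' : ℕ → Matrix B B ℂ) (t : ℕ)
    (h : ∀ k < t, A k = A' k) : ModelR.lay A t = ModelR.lay A' t := by
  induction t with
  | zero => rw [ModelR.lay_zero, ModelR.lay_zero]
  | succ t ih =>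
    rw [ModelR.lay_succ, ModelR.lay_succ, h t (Nat.lt_succ_self t),
      ih (fun k hk => h k (Nat.lt_succ_of_lt hk))]

/-- the unitaries of the call, padded -/
noncomputable def pu {N T q m M : ℕ}
    (U : Fin (T + 1) → Matrix.unitaryGroup (Bas N q m × Fin M) ℂ) (t : ℕ) :
    Matrix (Bas N q m × Fin M) (Bas N q m × Fin M) ℂ :=
  if h : t < T then (U (Fin.succ ⟨t, h⟩)).1 else 1

/-- the unitary `V` on the memory -/
noncomputable def vm {N q m M : ℕ} (V : Matrix.unitaryGroup (Fin M) ℂ) :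
    Matrix (Bas N q m × Fin M) (Bas N q m × Fin M) ℂ :=
  Matrix.kronecker (1 : Matrix (Bas N q m) (Bas N q m) ℂ) V.1

/-- the padded unitaries, the last one followed by `V` -/
noncomputable def puV {N T q m M : ℕ}
    (U : Fin (T + 1) → Matrix.unitaryGroup (Bas N q m × Fin M) ℂ)
    (V : Matrix.unitaryGroup (Fin M) ℂ) (t : ℕ) :
    Matrix (Bas N q m × Fin M) (Bas N q m × Fin M) ℂ :=
  if t + 1 = T then vm V * pu U t else pu U t

/-- the layers -/
noncomputable def ly {N q m M : ℕ} (P : ℕ → Matrix (Bas N q m × Fin M) (Bas N q m × Fin M) ℂ)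
    (R : ℕ → Finset (Fin N)) (x : Fin N → Bool) (k : ℕ) :
    Matrix (Bas N q m × Fin M) (Bas N q m × Fin M) ℂ :=
  P k * Matrix.diagonal (fun b => ModelR.ph (R k) x b.1)

/-- the states -/
noncomputable def sta {N q m M : ℕ}
    (P : ℕ → Matrix (Bas N q m × Fin M) (Bas N q m × Fin M) ℂ)
    (R : ℕ → Finset (Fin N)) (U0 : Matrix (Bas N q m × Fin M) (Bas N q m × Fin M) ℂ)
    (s₀ : Bas N q m) (Φ : Matrix (Fin M) (Fin M) ℂ) (t : ℕ) (x : Fin N → Bool)
    (s : (Bas N q m × Fin M) × Fin M) : ℂ :=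
  ∑ μ, (ModelR.lay (ly P R x) t * U0) s.1 (s₀, μ) * Φ μ s.2

/-- tensor product with the identity of the reference system -/
noncomputable def amp {C : Type*} [Fintype C] [DecidableEq C] {M : ℕ} (A : Matrix C C ℂ) :
    Matrix (C × Fin M) (C × Fin M) ℂ :=
  Matrix.kronecker A (1 : Matrix (Fin M) (Fin M) ℂ)

lemma amp_mulVec {C : Type*} [Fintype C] [DecidableEq C] {M : ℕ} (A : Matrix C C ℂ)
    (g : C × Fin M → ℂ) (c : C) (ν : Fin M) :
    (amp A *ᵥ g) (c, ν) = ∑ c', A c c' * g (c', ν) := by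
  unfold amp
  rw [Matrix.mulVec, dotProduct, Fintype.sum_prod_type]
  apply Finset.sum_congr rfl
  intro c' _
  rw [Finset.sum_eq_single ν]
  · simp [Matrix.kronecker, Matrix.kroneckerMap_apply]
  · intro ν' _ h
    simp [Matrix.kronecker, Matrix.kroneckerMap_apply, Matrix.one_apply_ne h.symm]
  · intro h
    exact absurd (Finset.mem_univ _) h

lemma amp_star {C : Type*} [Fintype C] [DecidableEq C] {M : ℕ} (A : Matrix C C ℂ)
    (h : Aᴴ * A = 1) : (amp (M := M) A)ᴴ * amp A = 1 := by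
  unfold amp
  rw [Matrix.kronecker, Matrix.conjTranspose_kronecker, ← Matrix.mul_kronecker_mul, h,
    Matrix.conjTranspose_one, one_mul, Matrix.one_kronecker_one]

lemma amp_star' {C : Type*} [Fintype C] [DecidableEq C] {M : ℕ} (A : Matrix C C ℂ)
    (h : A * Aᴴ = 1) : amp (M := M) A * (amp A)ᴴ = 1 := by
  unfold amp
  rw [Matrix.kronecker, Matrix.conjTranspose_kronecker, ← Matrix.mul_kronecker_mul, h,
    Matrix.conjTranspose_one, one_mul, Matrix.one_kronecker_one]

lemma vm_star {N q m M : ℕ} (V : Matrix.unitaryGroup (Fin M) ℂ) :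
    (vm (N := N) (q := q) (m := m) V)ᴴ * vm V = 1 := by
  unfold vm
  rw [Matrix.kronecker, Matrix.conjTranspose_kronecker, ← Matrix.mul_kronecker_mul,
    Matrix.conjTranspose_one, one_mul]
  have h : (V.1)ᴴ * V.1 = 1 := Matrix.UnitaryGroup.star_mul_self V
  rw [h, Matrix.one_kronecker_one]

lemma vm_star' {N q m M : ℕ} (V : Matrix.unitaryGroup (Fin M) ℂ) :
    vm (N := N) (q := q) (m := m) V * (vm V)ᴴ = 1 := by
  unfold vm
  rw [Matrix.kronecker, Matrix.conjTranspose_kronecker, ← Matrix.mul_kronecker_mul,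
    Matrix.conjTranspose_one, one_mul]
  have h : V.1 * (V.1)ᴴ = 1 := Matrix.mem_unitaryGroup_iff.1 V.2
  rw [h, Matrix.one_kronecker_one]

lemma pu_star {N T q m M : ℕ}
    (U : Fin (T + 1) → Matrix.unitaryGroup (Bas N q m × Fin M) ℂ) (t : ℕ) :
    (pu U t)ᴴ * pu U t = 1 := by
  unfold pu
  by_cases h : t < T
  · simp only [h, dif_pos]
    exact Matrix.UnitaryGroup.star_mul_self _
  · simp [h]

lemma pu_star' {N T q m M : ℕ}
    (U : Fin (T + 1) → Matrix.unitaryGroup (Bas N q m × Fin M) ℂ) (t : ℕ) :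
    pu U t * (pu U t)ᴴ = 1 := by
  unfold pu
  by_cases h : t < T
  · simp only [h, dif_pos]
    exact Matrix.mem_unitaryGroup_iff.1 (U (Fin.succ ⟨t, h⟩)).2
  · simp [h]

lemma puV_star {N T q m M : ℕ}
    (U : Fin (T + 1) → Matrix.unitaryGroup (Bas N q m × Fin M) ℂ)
    (V : Matrix.unitaryGroup (Fin M) ℂ) (t : ℕ) :
    (puV U V t)ᴴ * puV U V t = 1 := by
  unfold puV
  split_ifs
  · rw [Matrix.conjTranspose_mul, Matrix.mul_assoc, ← Matrix.mul_assoc (vm V)ᴴ, vm_star,
      Matrix.one_mul, pu_star]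
  · exact pu_star U t

lemma puV_star' {N T q m M : ℕ}
    (U : Fin (T + 1) → Matrix.unitaryGroup (Bas N q m × Fin M) ℂ)
    (V : Matrix.unitaryGroup (Fin M) ℂ) (t : ℕ) :
    puV U V t * (puV U V t)ᴴ = 1 := by
  unfold puV
  split_ifs
  · rw [Matrix.conjTranspose_mul, Matrix.mul_assoc, ← Matrix.mul_assoc (pu U t), pu_star',
      Matrix.one_mul, vm_star']
  · exact pu_star' U t

lemma sta_succ {N q m M : ℕ}
    (P : ℕ → Matrix (Bas N q m × Fin M) (Bas N q m × Fin M) ℂ)
    (R : ℕ → Finset (Fin N)) (U0 : Matrix (Bas N q m × Fin M) (Bas N q m × Fin M) ℂ)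
    (s₀ : Bas N q m) (Φ : Matrix (Fin M) (Fin M) ℂ) (t : ℕ) (x : Fin N → Bool) :
    sta P R U0 s₀ Φ (t + 1) x =
      amp (P t) *ᵥ (fun s => ModelR.ph (R t) x s.1.1 * sta P R U0 s₀ Φ t x s) := by
  funext s
  obtain ⟨c, ν⟩ := s
  rw [amp_mulVec]
  unfold sta
  simp only
  rw [ModelR.lay_succ]
  have h : ∀ μ, (ly P R x t * ModelR.lay (ly P R x) t * U0) c (s₀, μ) * Φ μ ν =
      ∑ c', P t c c' * (ModelR.ph (R t) x c'.1 *
        ((ModelR.lay (ly P R x) t * U0) c' (s₀, μ) * Φ μ ν)) := by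
    intro μ
    unfold ly
    rw [Matrix.mul_assoc, Matrix.mul_assoc, Matrix.mul_apply, Finset.sum_mul]
    apply Finset.sum_congr rfl
    intro c' _
    rw [Matrix.diagonal_mul]
    ring
  simp only [h]
  rw [Finset.sum_comm]
  apply Finset.sum_congr rfl
  intro c' _
  rw [Finset.mul_sum, Finset.mul_sum]

lemma sta_zero {N q m M : ℕ}
    (P : ℕ → Matrix (Bas N q m × Fin M) (Bas N q m × Fin M) ℂ)
    (R : ℕ → Finset (Fin N)) (U0 : Matrix (Bas N q m × Fin M) (Bas N q m × Fin M) ℂ)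
    (s₀ : Bas N q m) (Φ : Matrix (Fin M) (Fin M) ℂ) (x : Fin N → Bool) :
    sta P R U0 s₀ Φ 0 x =
      amp U0 *ᵥ (fun s => if s.1.1 = s₀ then Φ s.1.2 s.2 else 0) := by
  funext s
  obtain ⟨c, ν⟩ := s
  rw [amp_mulVec]
  unfold sta
  rw [ModelR.lay_zero, Matrix.one_mul, Fintype.sum_prod_type]
  simp only
  rw [Finset.sum_eq_single s₀]
  · simp
  · intro s _ hs
    simp [hs]
  · intro h
    exact absurd (Finset.mem_univ _) h

lemma nsq_init {N q m M : ℕ} (s₀ : Bas N q m) (Φ : Matrix (Fin M) (Fin M) ℂ)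
    (hΦ : ∑ μ, ∑ ν, ‖Φ μ ν‖ ^ 2 = 1) :
    nsq (fun s : (Bas N q m × Fin M) × Fin M => if s.1.1 = s₀ then Φ s.1.2 s.2 else 0) = 1 := by
  unfold nsq
  rw [Fintype.sum_prod_type, Fintype.sum_prod_type]
  simp only
  rw [Finset.sum_eq_single s₀]
  · simpa using hΦ
  · intro s _ hs
    simp [hs]
  · intro h
    exact absurd (Finset.mem_univ _) h

/-- the evolution -/
noncomputable def evo {N T q m M : ℕ} (W : Fin T → Finset (Fin N))
    (U : Fin (T + 1) → Matrix.unitaryGroup (Bas N q m × Fin M) ℂ) (s₀ : Bas N q m)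
    (Φ : Matrix (Fin M) (Fin M) ℂ) (hΦ : ∑ μ, ∑ ν, ‖Φ μ ν‖ ^ 2 = 1)
    (V : Matrix.unitaryGroup (Fin M) ℂ) :
    EvoR N ((Bas N q m × Fin M) × Fin M) q (ModelR.padW W) where
  U := fun t => amp (puV U V t)
  hU := fun t => amp_star _ (puV_star U V t)
  hU' := fun t => amp_star' _ (puV_star' U V t)
  d := fun t x s => ModelR.ph (ModelR.padW W t) x s.1.1
  dsq := fun t x s => ModelR.ph_sq (ModelR.padW W t) x s.1.1
  dst := fun t x s => ModelR.ph_star (ModelR.padW W t) x s.1.1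
  dn := fun t x s => ModelR.ph_norm (ModelR.padW W t) x s.1.1
  Qs := fun t s => ModelR.oddSet (ModelR.padW W t) s.1.1
  Qcard := fun t s => ModelR.oddSet_card (ModelR.padW W t) s.1.1
  Qsub := fun t s => Finset.filter_subset _ _
  flip := fun t x s i => ModelR.ph_flip (ModelR.padW W t) x s.1.1 i
  st := sta (puV U V) (ModelR.padW W) (U 0).1 s₀ Φ
  st0 := by
    intro x y
    rw [sta_zero, sta_zero]
  nst0 := by
    intro x
    rw [sta_zero, nsq_unitary _ (amp_star _ (Matrix.UnitaryGroup.star_mul_self _)),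
      nsq_init s₀ Φ hΦ]
  stS := fun t x => sta_succ _ _ _ _ _ t x

lemma tot_eq {N T q m M : ℕ} (W : Fin T → Finset (Fin N))
    (U : Fin (T + 1) → Matrix.unitaryGroup (Bas N q m × Fin M) ℂ) (x : Fin N → Bool) :
    tot W U x = ModelR.lay (ly (pu U) (ModelR.padW W) x) T * (U 0).1 := by
  unfold tot ModelR.lay ly
  congr 4
  funext k
  simp [pu, ModelR.padW, ModelR.ph]

lemma lay_last {B : Type} [Fintype B] [DecidableEq B] (A : ℕ → Matrix B B ℂ) (T t : ℕ)
    (ht : T = t + 1) : ModelR.lay A T = A t * ModelR.lay A t := by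
  subst ht
  exact ModelR.lay_succ A t

lemma last {N T q m M : ℕ} (hT : 1 ≤ T) (W : Fin T → Finset (Fin N))
    (U : Fin (T + 1) → Matrix.unitaryGroup (Bas N q m × Fin M) ℂ)
    (V : Matrix.unitaryGroup (Fin M) ℂ) (x : Fin N → Bool) :
    ModelR.lay (ly (puV U V) (ModelR.padW W) x) T * (U 0).1 = vm V * tot W U x := by
  rw [tot_eq]
  obtain ⟨t, ht⟩ : ∃ t, T = t + 1 := ⟨T - 1, by omega⟩
  have h1 := lay_last (ly (puV U V) (ModelR.padW W) x) T t ht
  have h2 := lay_last (ly (pu U) (ModelR.padW W) x) T t ht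
  rw [h1, h2]
  have h3 : ModelR.lay (ly (puV U V) (ModelR.padW W) x) t =
      ModelR.lay (ly (pu U) (ModelR.padW W) x) t := by
    apply lay_congr
    intro k hk
    unfold ly puV
    rw [if_neg (by omega)]
  rw [h3]
  unfold ly puV
  rw [if_pos ht.symm]
  simp only [Matrix.mul_assoc]

lemma sta_last {N T q m M : ℕ} (hT : 1 ≤ T) (W : Fin T → Finset (Fin N))
    (U : Fin (T + 1) → Matrix.unitaryGroup (Bas N q m × Fin M) ℂ) (s₀ : Bas N q m)
    (Φ : Matrix (Fin M) (Fin M) ℂ)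
    (V : Matrix.unitaryGroup (Fin M) ℂ) (x : Fin N → Bool) (s : Bas N q m) (μ ν : Fin M) :
    sta (puV U V) (ModelR.padW W) (U 0).1 s₀ Φ T x ((s, μ), ν) =
      (V.1 * kr W U s₀ x s * Φ) μ ν := by
  unfold sta
  simp only
  rw [last hT W U V x, Matrix.mul_apply]
  apply Finset.sum_congr rfl
  intro μ2 _
  congr 1
  rw [Matrix.mul_apply, Matrix.mul_apply, Fintype.sum_prod_type, Finset.sum_eq_single s]
  · apply Finset.sum_congr rfl
    intro μ3 _
    simp [vm, kr, Matrix.kronecker, Matrix.kroneckerMap_apply]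
  · intro s' _ hs
    apply Finset.sum_eq_zero
    intro μ3 _
    simp [vm, Matrix.kronecker, Matrix.kroneckerMap_apply, Matrix.one_apply_ne hs.symm]
  · intro h
    exact absurd (Finset.mem_univ _) h

lemma sum_norm {M : ℕ} (X : Matrix (Fin M) (Fin M) ℂ) (μ : Fin M) :
    ((∑ ν, ‖X μ ν‖ ^ 2 : ℝ) : ℂ) = (X * Xᴴ) μ μ := by
  rw [Matrix.mul_apply, Complex.ofReal_sum]
  apply Finset.sum_congr rfl
  intro ν _
  rw [Matrix.conjTranspose_apply, Complex.ofReal_pow]
  exact (Complex.mul_conj' (X μ ν)).symm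

end EVM327

open Finset Matrix Pool.Agent.H572R2 Pool.Agent.W920.HQ EVM327

theorem t_evm : S_evm := by
  intro N T q m M hT W U s₀ Φ hΦ
  refine ⟨fun t k x => ∑ s ∈ Finset.univ.filter
    (fun s : (Bas N q m × Fin M) × Fin M => k ∈ ModelR.oddSet (ModelR.padW W t) s.1.1),
      ‖sta (pu U) (ModelR.padW W) (U 0).1 s₀ Φ t x s‖ ^ 2, ?_⟩
  intro V
  refine ⟨evo W U s₀ Φ hΦ V, ?_, ?_⟩
  · intro t ht
    funext k x
    unfold EvoR.mag EvoR.pr
    apply Finset.sum_congr rfl
    intro s _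
    have h3 : ModelR.lay (ly (puV U V) (ModelR.padW W) x) t =
        ModelR.lay (ly (pu U) (ModelR.padW W) x) t := by
      apply lay_congr
      intro k hk
      unfold ly puV
      rw [if_neg (by omega)]
    change ‖sta (puV U V) (ModelR.padW W) (U 0).1 s₀ Φ t x s‖ ^ 2 = _
    unfold sta
    rw [h3]
  · intro O μ x
    have h1 : (evo W U s₀ Φ hΦ V).pr
        (Finset.univ.filter (fun s => s.1.1 ∈ O ∧ s.1.2 = μ)) T x =
        ∑ s ∈ O, ∑ ν, ‖(V.1 * kr W U s₀ x s * Φ) μ ν‖ ^ 2 := by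
      unfold EvoR.pr
      rw [Finset.sum_filter, Fintype.sum_prod_type, Fintype.sum_prod_type,
        ← Finset.sum_filter_add_sum_filter_not Finset.univ (fun s => s ∈ O)]
      have h2 : ∑ s ∈ Finset.univ.filter (fun s : Bas N q m => ¬ s ∈ O), ∑ μ' : Fin M,
          ∑ ν : Fin M, (if s ∈ O ∧ μ' = μ then
            ‖(evo W U s₀ Φ hΦ V).st T x ((s, μ'), ν)‖ ^ 2 else 0) = 0 := by
        apply Finset.sum_eq_zero
        intro s hs
        rw [Finset.mem_filter] at hs
        apply Finset.sum_eq_zero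
        intro μ' _
        apply Finset.sum_eq_zero
        intro ν _
        rw [if_neg (fun h => hs.2 h.1)]
      simp only at h2 ⊢
      rw [h2, add_zero, Finset.filter_mem_eq_inter, Finset.univ_inter]
      apply Finset.sum_congr rfl
      intro s hs
      rw [Finset.sum_eq_single μ]
      · apply Finset.sum_congr rfl
        intro ν _
        rw [if_pos ⟨hs, rfl⟩]
        change ‖sta (puV U V) (ModelR.padW W) (U 0).1 s₀ Φ T x ((s, μ), ν)‖ ^ 2 = _
        rw [sta_last hT W U s₀ Φ V x s μ ν]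
      · intro μ' _ hμ
        apply Finset.sum_eq_zero
        intro ν _
        rw [if_neg (fun h => hμ h.2)]
      · intro h
        exact absurd (Finset.mem_univ _) h
    rw [h1, Complex.ofReal_sum]
    simp only [sum_norm]
    unfold RR
    rw [Finset.mul_sum, Finset.sum_mul, Matrix.sum_apply]
    apply Finset.sum_congr rfl
    intro s _
    congr 1
    simp only [Matrix.conjTranspose_mul, Matrix.mul_assoc]

end Pool.Agent.W920.HM
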