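import Pool.Agent.W920.HM.Stm

set_option autoImplicit false

namespace Pool.Agent.W920.HM

open Finset Matrix Pool.Agent.H572R2 Pool.Agent.W920.HQ
open scoped ComplexOrder

namespace TVARM

variable {N : ℕ}

lemma cEx_re (S : Finset (Fin N)) (a : Fin N → Bool) (f : (Fin N → Bool) → ℂ) :
    (cEx S a f).re = Ex S a (fun x => (f x).re) := by
  unfold cEx Ex EE
  have h : ((2 : ℂ) ^ N) = (((2 : ℝ) ^ N : ℝ) : ℂ) := by push_cast; rfl
  rw [h, Complex.div_ofReal_re, Complex.re_sum]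

lemma cEx_im (S : Finset (Fin N)) (a : Fin N → Bool) (f : (Fin N → Bool) → ℂ) :
    (cEx S a f).im = Ex S a (fun x => (f x).im) := by
  unfold cEx Ex EE
  have h : ((2 : ℂ) ^ N) = (((2 : ℝ) ^ N : ℝ) : ℂ) := by push_cast; rfl
  rw [h, Complex.div_ofReal_im, Complex.im_sum]

/-- mean deviation from the variance -/
lemma dev (S : Finset (Fin N)) (a : Fin N → Bool) (g : (Fin N → Bool) → ℝ) (D : ℝ)
    (h : Ex S a (fun x => (g x) ^ 2) - (Ex S a g) ^ 2 ≤ D) :
    Ex S a (fun x => |g x - Ex S a g|) ≤ Real.sqrt D := by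
  obtain ⟨c, hc⟩ : ∃ c, c = Ex S a g := ⟨_, rfl⟩
  rw [← hc] at h ⊢
  apply Real.le_sqrt_of_sq_le
  have h1 := EE_cs (fun x => |g (mix S a x) - c|) (fun _ => 1)
  have h2 : EE (fun x => |g (mix S a x) - c| * 1) = Ex S a (fun x => |g x - c|) := by
    unfold Ex
    apply EE_congr
    intro x
    rw [mul_one]
  have h3 : EE (fun _ : Fin N → Bool => (1 : ℝ) ^ 2) = 1 := by
    rw [one_pow]
    exact EE_const 1
  have h4 : EE (fun x => |g (mix S a x) - c| ^ 2) = Ex S a (fun x => (g x) ^ 2) - c ^ 2 := by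
    have h5 : ∀ x, |g (mix S a x) - c| ^ 2
        = ((g (mix S a x)) ^ 2 - (2 * c) * g (mix S a x)) + c ^ 2 := by
      intro x
      rw [sq_abs]
      ring
    rw [EE_congr h5, EE_add, EE_sub, EE_mul, EE_const]
    have h6 : EE (fun x => g (mix S a x)) = c := hc.symm
    rw [h6]
    unfold Ex
    ring
  rw [h2, h3, h4, mul_one] at h1
  linarith

/-- half differences -/
lemma half (S : Finset (Fin N)) (a : Fin N → Bool) (f g u : (Fin N → Bool) → ℝ) (s : ℝ)
    (hf : Ex S a (fun x => |f x - Ex S a f|) ≤ s) (hg : Ex S a (fun x => |g x - Ex S a g|) ≤ s)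
    (hu : ∀ x, u x = (1 / 2) * (f x - g x)) : Ex S a (fun x => |u x - Ex S a u|) ≤ s := by
  have h1 : Ex S a u = (1 / 2) * (Ex S a f - Ex S a g) := by
    unfold Ex
    rw [← EE_sub, ← EE_mul]
    exact EE_congr fun x => hu _
  have h2 : Ex S a (fun x => |u x - Ex S a u|) ≤
      EE (fun x => (1 / 2) * (|f (mix S a x) - Ex S a f| + |g (mix S a x) - Ex S a g|)) := by
    apply EE_mono
    intro x
    have e : u (mix S a x) - Ex S a u
        = (1 / 2) * ((f (mix S a x) - Ex S a f) - (g (mix S a x) - Ex S a g)) := by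
      rw [h1, hu]
      ring
    show |u (mix S a x) - Ex S a u| ≤ _
    rw [e, abs_mul, abs_of_pos (by norm_num : (0 : ℝ) < 1 / 2)]
    exact mul_le_mul_of_nonneg_left (abs_sub _ _) (by norm_num)
  rw [EE_mul, EE_add] at h2
  have h3 : EE (fun x => |f (mix S a x) - Ex S a f|) ≤ s := hf
  have h4 : EE (fun x => |g (mix S a x) - Ex S a g|) ≤ s := hg
  linarith

lemma AA_le (W : ℕ → Finset (Fin N)) (qq : ℝ) (m : ℕ → Fin N → (Fin N → Bool) → ℝ)
    (G : GR W qq m) (T : ℕ) (S : Finset (Fin N)) (a : Fin N → Bool) :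
    AA m T S a ≤ T * qq := by
  unfold AA
  calc ∑ t ∈ Finset.range T, ∑ k ∈ Sᶜ, Ex S a (m t k)
      ≤ ∑ t ∈ Finset.range T, qq := by
        apply Finset.sum_le_sum; intro t _
        calc ∑ k ∈ Sᶜ, Ex S a (m t k) ≤ ∑ k, Ex S a (m t k) :=
              Finset.sum_le_sum_of_subset_of_nonneg (Finset.subset_univ _)
                fun k _ _ => EE_nonneg fun x => G.nonneg t k _
          _ = EE (fun x => ∑ k, m t k (mix S a x)) := by
              rw [EE_sum]
              rfl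
          _ ≤ EE (fun _ => qq) := EE_mono fun x => G.sum_le t _
          _ = qq := EE_const qq
    _ = T * qq := by rw [Finset.sum_const, Finset.card_range, nsmul_eq_mul]

section
open scoped MatrixOrder

lemma psd {M : ℕ} {ρ : Matrix (Fin M) (Fin M) ℂ} (hρ : ρ.PosSemidef) :
    ∃ B : Matrix (Fin M) (Fin M) ℂ, ρ = Bᴴ * B :=
  CStarAlgebra.nonneg_iff_eq_star_mul_self.mp hρ.nonneg

end

/-- Householder matrices -/
lemma house {M : ℕ} (w : Fin M → ℂ) (α : ℂ) (hα : star α = α) (h : α * (star w ⬝ᵥ w) = 2) :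
    (1 - α • vecMulVec w (star w)) ∈ Matrix.unitaryGroup (Fin M) ℂ := by
  rw [Matrix.mem_unitaryGroup_iff]
  have h1 : star (1 - α • vecMulVec w (star w)) = 1 - α • vecMulVec w (star w) := by
    rw [star_sub, star_one, star_smul, hα, Matrix.star_eq_conjTranspose,
      Matrix.conjTranspose_vecMulVec, star_star]
  rw [h1]
  have h2 : vecMulVec w (star w) * vecMulVec w (star w)
      = (star w ⬝ᵥ w) • vecMulVec w (star w) := by
    rw [Matrix.vecMulVec_mul_vecMulVec, Matrix.vecMulVec_smul]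
  have h3 : (1 - α • vecMulVec w (star w)) * (1 - α • vecMulVec w (star w))
      = 1 - (2 * α) • vecMulVec w (star w)
        + (α * α) • (vecMulVec w (star w) * vecMulVec w (star w)) := by
    rw [mul_sub, sub_mul, sub_mul, mul_one, one_mul, mul_one, smul_mul_assoc, mul_smul_comm,
      smul_smul, two_mul, add_smul]
    abel
  rw [h3, h2, smul_smul, show α * α * (star w ⬝ᵥ w) = 2 * α by rw [mul_assoc, h]; ring,
    sub_add_cancel]

/-- polarization unitaries -/
lemma exV {M : ℕ} (μ ν : Fin M) (hμν : μ ≠ ν) (ζ : ℂ) (hζ : ζ * star ζ = 1) :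
    ∃ V : Matrix.unitaryGroup (Fin M) ℂ, ∀ R : Matrix (Fin M) (Fin M) ℂ,
      (V.1 * R * V.1ᴴ) μ μ = (R μ μ + R ν ν + ζ * R μ ν + star ζ * R ν μ) / 2 := by
  obtain ⟨c, hc⟩ : ∃ c : ℂ, c = ((1 / Real.sqrt 2 : ℝ) : ℂ) := ⟨_, rfl⟩
  have hcs : star c = c := by rw [hc]; exact Complex.conj_ofReal _
  have hcc : c * c = 1 / 2 := by
    rw [hc, ← Complex.ofReal_mul]
    have : (1 / Real.sqrt 2 : ℝ) * (1 / Real.sqrt 2) = 1 / 2 := by
      rw [div_mul_div_comm, Real.mul_self_sqrt (by norm_num), one_mul]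
    rw [this]
    push_cast
    rfl
  have hc1 : 1 - c ≠ 0 := by
    intro h0
    have h1 : c = 1 := by linear_combination -h0
    rw [h1] at hcc
    norm_num at hcc
  obtain ⟨w, hw⟩ : ∃ w : Fin M → ℂ, w = Pi.single μ (1 - c) + Pi.single ν (-(c * ζ)) := ⟨_, rfl⟩
  have hwμ : w μ = 1 - c := by
    rw [hw, Pi.add_apply, Pi.single_eq_same, Pi.single_eq_of_ne hμν, add_zero]
  have hwν : w ν = -(c * ζ) := by
    rw [hw, Pi.add_apply, Pi.single_eq_same, Pi.single_eq_of_ne hμν.symm, zero_add]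
  have hwo : ∀ j, j ≠ μ → j ≠ ν → w j = 0 := by
    intro j h1 h2
    rw [hw, Pi.add_apply, Pi.single_eq_of_ne h1, Pi.single_eq_of_ne h2, add_zero]
  have hdot : star w ⬝ᵥ w = 2 * (1 - c) := by
    have h1 : star w ⬝ᵥ w = star w ⬝ᵥ (Pi.single μ (1 - c)) + star w ⬝ᵥ (Pi.single ν (-(c * ζ))) := by
      rw [← dotProduct_add, ← hw]
    rw [h1, dotProduct_single, dotProduct_single, Pi.star_apply, Pi.star_apply, hwμ, hwν,
      star_sub, star_one, hcs, star_neg, star_mul, hcs]
    linear_combination 2 * hcc + (c * c) * hζ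
  have hα : (1 - c)⁻¹ * (star w ⬝ᵥ w) = 2 := by
    rw [hdot]
    field_simp
  have hαs : star ((1 - c)⁻¹) = (1 - c)⁻¹ := by
    rw [star_inv₀, star_sub, star_one, hcs]
  refine ⟨⟨_, house w _ hαs hα⟩, ?_⟩
  intro R
  have hrow : ∀ j, (1 - (1 - c)⁻¹ • vecMulVec w (star w)) μ j
      = (Pi.single μ c : Fin M → ℂ) j + (Pi.single ν (c * star ζ) : Fin M → ℂ) j := by
    intro j
    rw [Matrix.sub_apply, Matrix.smul_apply, Matrix.vecMulVec_apply, hwμ, smul_eq_mul,
      ← mul_assoc, inv_mul_cancel₀ hc1, one_mul, Pi.star_apply, Matrix.one_apply]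
    by_cases h1 : j = μ
    · subst h1
      rw [if_pos rfl, hwμ, Pi.single_eq_same, Pi.single_eq_of_ne hμν, star_sub, star_one, hcs]
      ring
    · rw [if_neg (Ne.symm h1), Pi.single_eq_of_ne h1]
      by_cases h2 : j = ν
      · subst h2
        rw [hwν, Pi.single_eq_same, star_neg, star_mul, hcs]
        ring
      · rw [hwo j h1 h2, Pi.single_eq_of_ne h2, star_zero]
        ring
  obtain ⟨V, hV⟩ : ∃ V : Matrix (Fin M) (Fin M) ℂ, V = 1 - (1 - c)⁻¹ • vecMulVec w (star w) :=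
    ⟨_, rfl⟩
  rw [← hV] at hrow
  have hgoal : (V * R * Vᴴ) μ μ = (R μ μ + R ν ν + ζ * R μ ν + star ζ * R ν μ) / 2 := ?_
  · rw [hV] at hgoal
    exact hgoal
  have h5 : ∀ k, (V * R) μ k = c * R μ k + (c * star ζ) * R ν k := by
    intro k
    rw [Matrix.mul_apply]
    simp only [hrow, add_mul, Finset.sum_add_distrib, Pi.single_apply, ite_mul, zero_mul,
      Finset.sum_ite_eq', Finset.mem_univ, if_true]
  rw [Matrix.mul_apply]
  simp only [Matrix.conjTranspose_apply, hrow, h5, star_add, mul_add, Finset.sum_add_distrib,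
    Pi.single_apply, apply_ite star, star_zero, mul_ite, mul_zero,
    Finset.sum_ite_eq', Finset.mem_univ, if_true, star_mul, star_star, hcs]
  linear_combination (R μ μ + R ν ν * (ζ * star ζ) + ζ * R μ ν + star ζ * R ν μ) * hcc
    + (R ν ν / 2) * hζ

lemma RR_herm {T q m M : ℕ} (W : Fin T → Finset (Fin N))
    (U : Fin (T + 1) → Matrix.unitaryGroup (Bas N q m × Fin M) ℂ) (s₀ : Bas N q m)
    (ρ : Matrix (Fin M) (Fin M) ℂ) (hρ : ρᴴ = ρ) (O : Finset (Bas N q m)) (x : Fin N → Bool)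
    (μ ν : Fin M) : RR W U s₀ ρ O x ν μ = star (RR W U s₀ ρ O x μ ν) := by
  have h : (RR W U s₀ ρ O x)ᴴ = RR W U s₀ ρ O x := by
    unfold RR
    rw [Matrix.conjTranspose_sum]
    apply Finset.sum_congr rfl
    intro s _
    rw [Matrix.conjTranspose_mul, Matrix.conjTranspose_mul, Matrix.conjTranspose_conjTranspose, hρ,
      Matrix.mul_assoc]
  calc RR W U s₀ ρ O x ν μ = (RR W U s₀ ρ O x)ᴴ ν μ := by rw [h]
    _ = _ := rfl

end TVARM

open TVARM in
theorem t_varm (h : S_evm) : S_varm := by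
  intro N T q r m M hT hq hr b hb hb1 W hW U s₀ ρ hρ htr
  obtain ⟨B, hB⟩ := psd hρ
  have hΦ : ρ = Bᴴ * (Bᴴ)ᴴ := by rw [Matrix.conjTranspose_conjTranspose]; exact hB
  obtain ⟨Φ, hΦd⟩ : ∃ Φ : Matrix (Fin M) (Fin M) ℂ, Φ = Bᴴ := ⟨_, rfl⟩
  rw [← hΦd] at hΦ
  have hsum : ∑ μ, ∑ ν, ‖Φ μ ν‖ ^ 2 = 1 := by
    have h1 : ((∑ μ, ∑ ν, ‖Φ μ ν‖ ^ 2 : ℝ) : ℂ) = 1 := by
      rw [← htr, hΦ, Matrix.trace]
      push_cast
      apply Finset.sum_congr rfl
      intro μ _
      rw [Matrix.diag_apply, Matrix.mul_apply]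
      apply Finset.sum_congr rfl
      intro ν _
      rw [Matrix.conjTranspose_apply]
      exact (Complex.mul_conj' _).symm
    exact_mod_cast h1
  have hqR : (1 : ℝ) ≤ q := by exact_mod_cast hq
  obtain ⟨mg0, hmg⟩ := h N T q m M hT W U s₀ Φ hsum
  rw [← hΦ] at hmg
  obtain ⟨E1, hE1, -⟩ := hmg 1
  refine ⟨fun t k x => if t < T then mg0 t k x else 0, ?_, ?_, ?_⟩
  · intro t k x
    show 0 ≤ if t < T then mg0 t k x else 0
    split_ifs with ht
    · rw [← hE1 t ht]
      exact E1.pr_nonneg _ t x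
    · exact le_rfl
  · intro S a
    have h1 : AA (fun t k x => if t < T then mg0 t k x else 0) T S a
        = AA (fun t k x => E1.mag t k x) T S a := by
      unfold AA
      apply Finset.sum_congr rfl
      intro t ht
      apply Finset.sum_congr rfl
      intro k _
      have ht' := Finset.mem_range.mp ht
      simp only [if_pos ht', ← hE1 t ht']
    rw [h1]
    exact AA_le _ _ _ E1.gr T S a
  · intro S a hl O μ ν
    have hl' : ∀ t < T, ∀ k ∈ Sᶜ, Ex S a (mg0 t k) ≤ b ^ 2 := by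
      intro t ht k hk
      have h1 := hl t ht k hk
      simp only [if_pos ht] at h1
      exact h1
    obtain ⟨D, hD⟩ : ∃ D : ℝ, D = 144 * r * T ^ 2 * q ^ 2 * (320 * r ^ 4 * T ^ 2 * q) ^ r * b :=
      ⟨_, rfl⟩
    rw [← hD]
    have hrd : ∀ i, (reads (ModelR.padW W) T i).card ≤ r := fun i => ModelR.reads_card W r hW i
    have key : ∀ V : Matrix.unitaryGroup (Fin M) ℂ,
        Ex S a (fun x => |((V.1 * RR W U s₀ ρ O x * V.1ᴴ) μ μ).re
          - Ex S a (fun y => ((V.1 * RR W U s₀ ρ O y * V.1ᴴ) μ μ).re)|) ≤ Real.sqrt D := by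
      intro V
      obtain ⟨E, hE, hEp⟩ := hmg V
      apply dev S a (fun x => ((V.1 * RR W U s₀ ρ O x * V.1ᴴ) μ μ).re)
      have h1 : (fun x => ((V.1 * RR W U s₀ ρ O x * V.1ᴴ) μ μ).re)
          = E.pr (Finset.univ.filter (fun s => s.1.1 ∈ O ∧ s.1.2 = μ)) T := by
        funext x
        rw [← hEp O μ x, Complex.ofReal_re]
      rw [hD]
      have h2 := light_var E.gr hqR T hT r hr hrd b hb hb1
        (E.pr (Finset.univ.filter (fun s => s.1.1 ∈ O ∧ s.1.2 = μ)) T)
        (E.pr_nonneg _ T) (E.pr_le_one _ T) (E.grd _ T) S a (by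
          intro t ht k hk
          have h3 := hl' t ht k hk
          rw [← hE t ht] at h3
          exact h3)
      rw [← h1] at h2
      exact h2
    have hherm := RR_herm W U s₀ ρ hρ.1 O
    have hs0 : 0 ≤ Real.sqrt D := Real.sqrt_nonneg _
    have hre : (cEx S a (fun y => RR W U s₀ ρ O y μ ν)).re
        = Ex S a (fun x => (RR W U s₀ ρ O x μ ν).re) := cEx_re _ _ _
    have him : (cEx S a (fun y => RR W U s₀ ρ O y μ ν)).im
        = Ex S a (fun x => (RR W U s₀ ρ O x μ ν).im) := cEx_im _ _ _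
    suffices hsuf : Ex S a (fun x => |(RR W U s₀ ρ O x μ ν).re
          - Ex S a (fun y => (RR W U s₀ ρ O y μ ν).re)|) ≤ Real.sqrt D ∧
        Ex S a (fun x => |(RR W U s₀ ρ O x μ ν).im
          - Ex S a (fun y => (RR W U s₀ ρ O y μ ν).im)|) ≤ Real.sqrt D by
      have h1 : Ex S a (fun x => ‖RR W U s₀ ρ O x μ ν
            - cEx S a (fun y => RR W U s₀ ρ O y μ ν)‖) ≤
          EE (fun x => |(RR W U s₀ ρ O (mix S a x) μ ν).re
              - Ex S a (fun y => (RR W U s₀ ρ O y μ ν).re)|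
            + |(RR W U s₀ ρ O (mix S a x) μ ν).im
              - Ex S a (fun y => (RR W U s₀ ρ O y μ ν).im)|) := by
        apply EE_mono
        intro x
        rw [← hre, ← him, ← Complex.sub_re, ← Complex.sub_im]
        exact Complex.norm_le_abs_re_add_abs_im _
      rw [EE_add] at h1
      have h2 := hsuf.1
      have h3 := hsuf.2
      unfold Ex at h1 h2 h3 ⊢
      linarith
    by_cases hμν : μ = ν
    · subst hμν
      have h1 := key 1
      have h2 : ∀ x, ((1 : Matrix.unitaryGroup (Fin M) ℂ).1 * RR W U s₀ ρ O x *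
          (1 : Matrix.unitaryGroup (Fin M) ℂ).1ᴴ) μ μ = RR W U s₀ ρ O x μ μ := by
        intro x
        have : (1 : Matrix.unitaryGroup (Fin M) ℂ).1 = 1 := rfl
        rw [this, Matrix.conjTranspose_one, one_mul, mul_one]
      simp only [h2] at h1
      refine ⟨h1, ?_⟩
      have h3 : ∀ x, (RR W U s₀ ρ O x μ μ).im = 0 := by
        intro x
        have h4 := congrArg Complex.im (hherm x μ μ)
        have h5 : (star (RR W U s₀ ρ O x μ μ)).im = -(RR W U s₀ ρ O x μ μ).im := Complex.conj_im _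
        rw [h5] at h4
        linarith
      simp only [h3]
      have h4 : Ex S a (fun _ => (0 : ℝ)) = 0 := EE_const 0
      rw [h4, sub_zero, abs_zero, h4]
      exact hs0
    · have hval : ∀ ζ : ℂ, ζ * star ζ = 1 → ∃ V : Matrix.unitaryGroup (Fin M) ℂ, ∀ x,
          ((V.1 * RR W U s₀ ρ O x * V.1ᴴ) μ μ).re
            = ((RR W U s₀ ρ O x μ μ).re + (RR W U s₀ ρ O x ν ν).re) / 2
              + (ζ * RR W U s₀ ρ O x μ ν).re := by
        intro ζ hζ
        obtain ⟨V, hV⟩ := exV μ ν hμν ζ hζ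
        refine ⟨V, fun x => ?_⟩
        rw [hV, hherm x μ ν]
        have h1 : star ζ * star (RR W U s₀ ρ O x μ ν) = star (ζ * RR W U s₀ ρ O x μ ν) := by
          rw [star_mul, mul_comm]
        rw [h1]
        have h2 : (star (ζ * RR W U s₀ ρ O x μ ν)).re = (ζ * RR W U s₀ ρ O x μ ν).re :=
          Complex.conj_re _
        have h3 : ∀ z : ℂ, (z / 2).re = z.re / 2 := by
          intro z
          have := Complex.div_ofReal_re z 2
          simpa using this
        rw [h3, Complex.add_re, Complex.add_re, Complex.add_re, h2]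
        ring
      obtain ⟨V1, h1⟩ := hval 1 (by simp)
      obtain ⟨V2, h2⟩ := hval (-1) (by simp)
      obtain ⟨V3, h3⟩ := hval (-Complex.I) (by simp)
      obtain ⟨V4, h4⟩ := hval (Complex.I) (by simp)
      refine ⟨half S a _ _ _ _ (key V1) (key V2) ?_, half S a _ _ _ _ (key V3) (key V4) ?_⟩
      · intro x
        rw [h1, h2]
        simp
        ring
      · intro x
        rw [h3, h4]
        simp
        ring

end Pool.Agent.W920.HM
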