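import Pool.Agent.W920.HM.T_SIMM
import Pool.Agent.W920.HM.T_VARM
import Pool.Agent.W920.HM.T_EVM
import Pool.Agent.W920.HM.T_EFF
import Pool.Agent.W920.HM.T_AFIN1
import Pool.Agent.W920.HM.T_AFIN2
import Pool.Agent.W920.HQ.Fin

set_option autoImplicit false

namespace Pool.Agent.W920.HM

open Finset Matrix Pool.Agent.H572R2 Pool.Agent.W920.HQ
open scoped ComplexOrder

theorem simm : S_simm := t_simm t_comp (t_varm t_evm) t_eff t_tpr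

theorem afin1 : S_afin1 := t_afin1 t_fixl

theorem afin2 : S_afin2 := t_afin2 t_osss

theorem simu (N T q r c M L : ℕ) (hT : 1 ≤ T) (hq : 1 ≤ q) (hr : 1 ≤ r)
    (P : MProg N T q r c M) (hP : P.calls ≤ L)
    (ρ : Matrix (Fin M) (Fin M) ℂ) (hρ : ρ.PosSemidef) (hρ1 : ρ.trace = 1) :
    Simu N T q r (2 * c * M ^ 2) L (fun x => (P.prob x ρ).re) := by
  have hPL : (P.calls : ℝ) ≤ L := by exact_mod_cast hP
  refine ⟨fun x => ?_, fun b hb hb1 S a => ?_⟩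
  · have h := (t_eff N T q r c M P x).2.2.2 ρ hρ
    refine ⟨h.1, h.2.2.trans (le_of_eq ?_)⟩
    rw [hρ1, Complex.one_re]
  · obtain ⟨t, h1, h2, h3⟩ := simm N T q r c M hT hq hr b hb hb1 P ρ hρ hρ1 S a
    exact ⟨c, t, h1, h2.trans (mul_le_mul_of_nonneg_right hPL (by positivity)),
      h3.trans (mul_le_mul_of_nonneg_right hPL (by positivity))⟩

/-- `1 ≤ M` for a density matrix. -/
theorem M_pos {M : ℕ} (ρ : Matrix (Fin M) (Fin M) ℂ) (hρ1 : ρ.trace = 1) : 1 ≤ M := by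
  rcases Nat.eq_zero_or_pos M with h | h
  · subst h
    simp [Matrix.trace] at hρ1
  · exact h

theorem bitfix (N T q r c M L : ℕ) (hT : 1 ≤ T) (hq : 1 ≤ q) (hr : 1 ≤ r) (hc : 1 ≤ c)
    (hL : 1 ≤ L) (P : MProg N T q r c M) (hP : P.calls ≤ L)
    (ρ : Matrix (Fin M) (Fin M) ℂ) (hρ : ρ.PosSemidef) (hρ1 : ρ.trace = 1)
    (p : (Fin N → Bool) → ℝ) (hp : ∀ x, p x = (P.prob x ρ).re)
    (V : ℝ) (hV : 0 < V) (hV1 : V = EE (fun x => (p x - EE p) ^ 2)) :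
    ∃ (S : Finset (Fin N)) (a : Fin N → Bool),
      (S.card : ℝ) ≤ 339738624 * (L : ℝ) ^ 5 * (c : ℝ) ^ 4 * (M : ℝ) ^ 8 * (r : ℝ) ^ 2
        * ((T : ℝ) * q) ^ 5 * (320 * (r : ℝ) ^ 4 * (T : ℝ) ^ 2 * q) ^ (2 * r) / V ^ 5 ∧
      V / 4 ≤ Ex S a p - EE p := by
  have hM := M_pos ρ hρ1
  have hc' : 1 ≤ 2 * c * M ^ 2 := Nat.mul_pos (by omega) (pow_pos hM 2)
  have hpp : p = fun x => (P.prob x ρ).re := funext hp
  subst hpp
  obtain ⟨S, a, h1, h2⟩ := afin1 N T q r (2 * c * M ^ 2) L hT hq hr hc' hL _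
    (simu N T q r c M L hT hq hr P hP ρ hρ hρ1) V hV hV1
  refine ⟨S, a, h1.trans (le_of_eq ?_), h2⟩
  push_cast
  ring

theorem infl (N T q r c M L : ℕ) (hT : 1 ≤ T) (hq : 1 ≤ q) (hr : 1 ≤ r) (hc : 1 ≤ c)
    (hL : 1 ≤ L) (P : MProg N T q r c M) (hP : P.calls ≤ L)
    (ρ : Matrix (Fin M) (Fin M) ℂ) (hρ : ρ.PosSemidef) (hρ1 : ρ.trace = 1)
    (p : (Fin N → Bool) → ℝ) (hp : ∀ x, p x = (P.prob x ρ).re)
    (V : ℝ) (hV : 0 < V) (hV1 : V = EE (fun x => (p x - EE p) ^ 2)) :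
    ∃ i : Fin N,
      (V ^ 5 / (113246208 * (L : ℝ) ^ 5 * (c : ℝ) ^ 4 * (M : ℝ) ^ 8 * (r : ℝ) ^ 2
        * ((T : ℝ) * q) ^ 5 * (320 * (r : ℝ) ^ 4 * (T : ℝ) ^ 2 * q) ^ (2 * r))) ^ 2
        ≤ EE (fun x => ((p x - p (flp i x)) / 2) ^ 2) := by
  have hM := M_pos ρ hρ1
  have hc' : 1 ≤ 2 * c * M ^ 2 := Nat.mul_pos (by omega) (pow_pos hM 2)
  have hpp : p = fun x => (P.prob x ρ).re := funext hp
  subst hpp
  obtain ⟨i, h1⟩ := afin2 N T q r (2 * c * M ^ 2) L hT hq hr hc' hL _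
    (simu N T q r c M L hT hq hr P hP ρ hρ hρ1) V hV hV1
  refine ⟨i, le_trans (le_of_eq ?_) h1⟩
  push_cast
  congr 2
  ring

end Pool.Agent.W920.HM
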