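import Pool.Agent.W920.HM.Defs
import Pool.Agent.W920.HQ.Stm

set_option autoImplicit false

namespace Pool.Agent.W920.HM

open Finset Matrix Pool.Agent.H572R2 Pool.Agent.W920.HQ
open scoped ComplexOrder

/-- The (unnormalised) state of the memory after the outcomes in `O`. -/
noncomputable def RR {N T q m M : ℕ} (W : Fin T → Finset (Fin N))
    (U : Fin (T + 1) → Matrix.unitaryGroup (Bas N q m × Fin M) ℂ) (s₀ : Bas N q m)
    (ρ : Matrix (Fin M) (Fin M) ℂ) (O : Finset (Bas N q m)) (x : Fin N → Bool) :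
    Matrix (Fin M) (Fin M) ℂ :=
  ∑ s ∈ O, kr W U s₀ x s * ρ * (kr W U s₀ x s)ᴴ

/-- Complex average over a subcube. -/
noncomputable def cEx {N : ℕ} (S : Finset (Fin N)) (a : Fin N → Bool)
    (f : (Fin N → Bool) → ℂ) : ℂ := (∑ x, f (mix S a x)) / 2 ^ N

/-- (EFF) basic properties of acceptance probabilities. -/
def S_eff : Prop := ∀ (N T q r c M : ℕ) (P : MProg N T q r c M) (x : Fin N → Bool),
  (∀ A : Matrix (Fin M) (Fin M) ℂ, ‖P.prob x A‖ ≤ ∑ μ, ∑ ν, ‖A μ ν‖) ∧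
  (∀ A B : Matrix (Fin M) (Fin M) ℂ, P.prob x (A + B) = P.prob x A + P.prob x B) ∧
  (∀ (z : ℂ) (A : Matrix (Fin M) (Fin M) ℂ), P.prob x (z • A) = z * P.prob x A) ∧
  (∀ ρ : Matrix (Fin M) (Fin M) ℂ, ρ.PosSemidef →
    0 ≤ (P.prob x ρ).re ∧ (P.prob x ρ).im = 0 ∧ (P.prob x ρ).re ≤ ρ.trace.re)

/-- (TPR) a call preserves the trace. -/
def S_tpr : Prop := ∀ (N T q m M : ℕ) (W : Fin T → Finset (Fin N))
  (U : Fin (T + 1) → Matrix.unitaryGroup (Bas N q m × Fin M) ℂ) (s₀ : Bas N q m)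
  (ρ : Matrix (Fin M) (Fin M) ℂ) (x : Fin N → Bool),
  (∑ s, kr W U s₀ x s * ρ * (kr W U s₀ x s)ᴴ).trace = ρ.trace

/-- (EVM) The evolutions attached to a call from the purified memory state `Φ * Φᴴ`, followed by a
unitary `V` on the memory; the query masses `mg` do not depend on `V`. -/
def S_evm : Prop := ∀ (N T q m M : ℕ), 1 ≤ T → ∀ (W : Fin T → Finset (Fin N))
  (U : Fin (T + 1) → Matrix.unitaryGroup (Bas N q m × Fin M) ℂ) (s₀ : Bas N q m)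
  (Φ : Matrix (Fin M) (Fin M) ℂ), ∑ μ, ∑ ν, ‖Φ μ ν‖ ^ 2 = 1 →
  ∃ mg : ℕ → Fin N → (Fin N → Bool) → ℝ,
    ∀ V : Matrix.unitaryGroup (Fin M) ℂ,
      ∃ E : EvoR N ((Bas N q m × Fin M) × Fin M) q (ModelR.padW W),
        (∀ t < T, E.mag t = mg t) ∧
        ∀ (O : Finset (Bas N q m)) (μ : Fin M) (x : Fin N → Bool),
          ((E.pr (Finset.univ.filter (fun s => s.1.1 ∈ O ∧ s.1.2 = μ)) T x : ℝ) : ℂ)
            = (V.1 * RR W U s₀ (Φ * Φᴴ) O x * V.1ᴴ) μ μ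

/-- (VARM) At a light node the state of the memory after a call hardly depends on the input. -/
def S_varm : Prop := ∀ (N T q r m M : ℕ), 1 ≤ T → 1 ≤ q → 1 ≤ r → ∀ b : ℝ, 0 < b → b ≤ 1 →
  ∀ (W : Fin T → Finset (Fin N)),
  (∀ i : Fin N, (Finset.univ.filter (fun k : Fin T => i ∈ W k)).card ≤ r) →
  ∀ (U : Fin (T + 1) → Matrix.unitaryGroup (Bas N q m × Fin M) ℂ) (s₀ : Bas N q m)
  (ρ : Matrix (Fin M) (Fin M) ℂ), ρ.PosSemidef → ρ.trace = 1 →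
  ∃ mg : ℕ → Fin N → (Fin N → Bool) → ℝ,
    (∀ t k x, 0 ≤ mg t k x) ∧ (∀ S a, AA mg T S a ≤ T * q) ∧
    ∀ (S : Finset (Fin N)) (a : Fin N → Bool), (∀ t < T, ∀ k ∈ Sᶜ, Ex S a (mg t k) ≤ b ^ 2) →
      ∀ (O : Finset (Bas N q m)) (μ ν : Fin M),
        Ex S a (fun x => ‖RR W U s₀ ρ O x μ ν - cEx S a (fun y => RR W U s₀ ρ O y μ ν)‖)
          ≤ 2 * Real.sqrt (144 * r * T ^ 2 * q ^ 2 * (320 * r ^ 4 * T ^ 2 * q) ^ r * b)

/-- (SIMM) Simulation of a program with quantum memory by a randomised decision tree. -/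
def S_simm : Prop := ∀ (N T q r c M : ℕ), 1 ≤ T → 1 ≤ q → 1 ≤ r → ∀ b : ℝ, 0 < b → b ≤ 1 →
  ∀ (P : MProg N T q r c M) (ρ : Matrix (Fin M) (Fin M) ℂ), ρ.PosSemidef → ρ.trace = 1 →
  ∀ (S : Finset (Fin N)) (a : Fin N → Bool),
    ∃ t : RT N c, t.ok ∧ Ex S a t.cost ≤ P.calls * (T * q / b ^ 2) ∧
      Ex S a (fun x => |(P.prob x ρ).re - t.ev x|) ≤
        P.calls * ((2 * c * M ^ 2 : ℕ) *
          Real.sqrt (144 * r * T ^ 2 * q ^ 2 * (320 * r ^ 4 * T ^ 2 * q) ^ r * b))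

/-- `p` is simulated by randomised decision trees. -/
def Simu (N T q r c L : ℕ) (p : (Fin N → Bool) → ℝ) : Prop :=
  (∀ x, 0 ≤ p x ∧ p x ≤ 1) ∧ ∀ b : ℝ, 0 < b → b ≤ 1 → ∀ (S : Finset (Fin N)) (a : Fin N → Bool),
    ∃ (k : ℕ) (t : RT N k), t.ok ∧ Ex S a t.cost ≤ L * (T * q / b ^ 2) ∧
      Ex S a (fun x => |p x - t.ev x|) ≤
        L * (c * Real.sqrt (144 * r * T ^ 2 * q ^ 2 * (320 * r ^ 4 * T ^ 2 * q) ^ r * b))

/-- (AFIN1) the final bit-fixing statement for functions simulated by trees. -/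
def S_afin1 : Prop := ∀ (N T q r c L : ℕ), 1 ≤ T → 1 ≤ q → 1 ≤ r → 1 ≤ c → 1 ≤ L →
  ∀ p : (Fin N → Bool) → ℝ, Simu N T q r c L p → ∀ V : ℝ, 0 < V →
    V = EE (fun x => (p x - EE p) ^ 2) →
    ∃ (S : Finset (Fin N)) (a : Fin N → Bool),
      (S.card : ℝ) ≤ 21233664 * L ^ 5 * c ^ 4 * r ^ 2 * (T * q) ^ 5
        * (320 * r ^ 4 * T ^ 2 * q) ^ (2 * r) / V ^ 5 ∧
      V / 4 ≤ Ex S a p - EE p

/-- (AFIN2) the final influence statement for functions simulated by trees. -/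
def S_afin2 : Prop := ∀ (N T q r c L : ℕ), 1 ≤ T → 1 ≤ q → 1 ≤ r → 1 ≤ c → 1 ≤ L →
  ∀ p : (Fin N → Bool) → ℝ, Simu N T q r c L p → ∀ V : ℝ, 0 < V →
    V = EE (fun x => (p x - EE p) ^ 2) →
    ∃ i : Fin N,
      (V ^ 5 / (7077888 * L ^ 5 * c ^ 4 * r ^ 2 * (T * q) ^ 5
        * (320 * r ^ 4 * T ^ 2 * q) ^ (2 * r))) ^ 2
        ≤ EE (fun x => ((p x - p (flp i x)) / 2) ^ 2)

end Pool.Agent.W920.HM
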