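import Pool.Agent.W920.HM.Stm

set_option autoImplicit false

namespace Pool.Agent.W920.HM

open Finset Matrix Pool.Agent.H572R2 Pool.Agent.W920.HQ
open scoped ComplexOrder

namespace TSIMM

variable {N T q r c M m : ℕ}

lemma prob_zero (h3 : S_eff) (P : MProg N T q r c M) (x : Fin N → Bool) : P.prob x 0 = 0 := by
  have h := (h3 N T q r c M P x).2.2.1 0 0
  simpa using h

lemma prob_sum (h3 : S_eff) (P : MProg N T q r c M) (x : Fin N → Bool) {ι : Type*}
    (O : Finset ι) (A : ι → Matrix (Fin M) (Fin M) ℂ) :
    P.prob x (∑ s ∈ O, A s) = ∑ s ∈ O, P.prob x (A s) := by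
  classical
  induction O using Finset.induction_on with
  | empty => simpa using prob_zero h3 P x
  | insert s O hs ih =>
    rw [Finset.sum_insert hs, Finset.sum_insert hs, (h3 N T q r c M P x).2.1, ih]

lemma prob_sub (h3 : S_eff) (P : MProg N T q r c M) (x : Fin N → Bool)
    (A B : Matrix (Fin M) (Fin M) ℂ) : P.prob x (A - B) = P.prob x A - P.prob x B := by
  have h := (h3 N T q r c M P x).2.1 (A - B) B
  rw [sub_add_cancel] at h
  rw [h]
  ring

lemma prob_call (h3 : S_eff) (W : Fin T → Finset (Fin N))
    (hW : ∀ i : Fin N, (Finset.univ.filter (fun k : Fin T => i ∈ W k)).card ≤ r)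
    (U : Fin (T + 1) → Matrix.unitaryGroup (Bas N q m × Fin M) ℂ) (s₀ : Bas N q m)
    (out : Bas N q m → Fin c) (next : Fin c → MProg N T q r c M) (x : Fin N → Bool)
    (ρ : Matrix (Fin M) (Fin M) ℂ) :
    (MProg.call m W hW U s₀ out next).prob x ρ =
      ∑ j, (next j).prob x (RR W U s₀ ρ (Finset.univ.filter (fun s => out s = j)) x) := by
  show ∑ s, (next (out s)).prob x (kr W U s₀ x s * ρ * (kr W U s₀ x s)ᴴ) = _
  rw [← Finset.sum_fiberwise Finset.univ out
    (fun s => (next (out s)).prob x (kr W U s₀ x s * ρ * (kr W U s₀ x s)ᴴ))]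
  refine Finset.sum_congr rfl fun j _ => ?_
  unfold RR
  rw [prob_sum h3]
  refine Finset.sum_congr rfl fun s hs => ?_
  rw [(Finset.mem_filter.mp hs).2]

lemma RR_psd (W : Fin T → Finset (Fin N))
    (U : Fin (T + 1) → Matrix.unitaryGroup (Bas N q m × Fin M) ℂ) (s₀ : Bas N q m)
    (ρ : Matrix (Fin M) (Fin M) ℂ) (hρ : ρ.PosSemidef) (O : Finset (Bas N q m))
    (x : Fin N → Bool) : (RR W U s₀ ρ O x).PosSemidef := by
  unfold RR
  exact Matrix.posSemidef_sum _ (fun s _ => hρ.mul_mul_conjTranspose_same _)

/-- average of a matrix -/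
noncomputable def Rb (S : Finset (Fin N)) (a : Fin N → Bool)
    (R : (Fin N → Bool) → Matrix (Fin M) (Fin M) ℂ) : Matrix (Fin M) (Fin M) ℂ :=
  Matrix.of fun μ ν => cEx S a (fun y => R y μ ν)

lemma Rb_eq (S : Finset (Fin N)) (a : Fin N → Bool)
    (R : (Fin N → Bool) → Matrix (Fin M) (Fin M) ℂ) :
    Rb S a R = ((2 : ℂ) ^ N)⁻¹ • ∑ y, R (mix S a y) := by
  ext μ ν
  simp only [Rb, cEx, Matrix.of_apply, Matrix.smul_apply, Matrix.sum_apply, smul_eq_mul]
  rw [div_eq_inv_mul]

lemma Rb_psd (S : Finset (Fin N)) (a : Fin N → Bool)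
    (R : (Fin N → Bool) → Matrix (Fin M) (Fin M) ℂ) (h : ∀ y, (R y).PosSemidef) :
    (Rb S a R).PosSemidef := by
  rw [Rb_eq]
  refine Matrix.PosSemidef.smul (Matrix.posSemidef_sum _ fun y _ => h _) ?_
  have h1 : ((2 : ℂ) ^ N)⁻¹ = (((2 : ℝ) ^ N)⁻¹ : ℝ) := by push_cast; rfl
  rw [h1]
  exact Complex.zero_le_real.mpr (by positivity)

lemma cEx_const (S : Finset (Fin N)) (a : Fin N → Bool) (z : ℂ) :
    cEx S a (fun _ => z) = z := by
  unfold cEx
  rw [Finset.sum_const, Finset.card_univ, Fintype.card_fun, Fintype.card_bool, Fintype.card_fin,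
    nsmul_eq_mul]
  push_cast
  field_simp

lemma Rb_trace (S : Finset (Fin N)) (a : Fin N → Bool)
    (R : (Fin N → Bool) → Matrix (Fin M) (Fin M) ℂ) :
    (Rb S a R).trace = cEx S a (fun y => (R y).trace) := by
  simp only [Matrix.trace, Rb, Matrix.diag, Matrix.of_apply, cEx]
  rw [← Finset.sum_div, Finset.sum_comm]

lemma Rb_trace_sum (S : Finset (Fin N)) (a : Fin N → Bool)
    (R : Fin c → (Fin N → Bool) → Matrix (Fin M) (Fin M) ℂ)
    (h : ∀ y, ∑ j, (R j y).trace = 1) : ∑ j, (Rb S a (R j)).trace = 1 := by
  have h1 : ∑ j, (Rb S a (R j)).trace = cEx S a (fun y => ∑ j, (R j y).trace) := by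
    simp only [Rb_trace]
    unfold cEx
    rw [← Finset.sum_div, Finset.sum_comm]
  rw [h1]
  simp only [h]
  exact cEx_const S a 1

lemma RR_trace (h4 : S_tpr) (W : Fin T → Finset (Fin N))
    (U : Fin (T + 1) → Matrix.unitaryGroup (Bas N q m × Fin M) ℂ) (s₀ : Bas N q m)
    (ρ : Matrix (Fin M) (Fin M) ℂ) (hρ : ρ.trace = 1) (out : Bas N q m → Fin c)
    (x : Fin N → Bool) :
    ∑ j, (RR W U s₀ ρ (Finset.univ.filter (fun s => out s = j)) x).trace = 1 := by
  have h := h4 N T q m M W U s₀ ρ x
  rw [hρ] at h
  rw [← h, ← Matrix.trace_sum]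
  congr 1
  unfold RR
  exact Finset.sum_fiberwise Finset.univ out
    (fun s => kr W U s₀ x s * ρ * (kr W U s₀ x s)ᴴ)

end TSIMM

open TSIMM in
theorem t_simm (h1 : Pool.Agent.W920.HQ.S_comp) (h2 : S_varm) (h3 : S_eff) (h4 : S_tpr) :
    S_simm := by
  intro N T q r c M hT hq hr b hb hb1 P
  have hqR : (1 : ℝ) ≤ q := by exact_mod_cast hq
  set D : ℝ := 144 * r * T ^ 2 * q ^ 2 * (320 * r ^ 4 * T ^ 2 * q) ^ r * b with hD
  have hD0 : 0 ≤ D := by positivity
  set k0 : ℝ := T * q / b ^ 2 with hk0
  have hk00 : 0 ≤ k0 := by positivity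
  set e0 : ℝ := (2 * c * M ^ 2 : ℕ) * Real.sqrt D with he0
  have he00 : 0 ≤ e0 := by positivity
  induction P with
  | halt bb =>
    intro ρ hρ hρ1 S a
    refine ⟨RT.leaf (if bb then 1 else 0), ?_, ?_, ?_⟩
    · cases bb <;> simp [RT.ok]
    · simp only [RT.cost, MProg.calls, Nat.cast_zero, zero_mul]
      exact le_of_eq (EE_const 0)
    · have h5 : ∀ x, |((MProg.halt bb : MProg N T q r c M).prob x ρ).re -
          (RT.leaf (if bb then 1 else 0) : RT N c).ev x| = 0 := by
        intro x
        cases bb <;> simp [RT.ev, MProg.prob, hρ1]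
      simp only [h5, MProg.calls, Nat.cast_zero, zero_mul]
      exact le_of_eq (EE_const 0)
  | call m W hW U s₀ out next ih =>
    intro ρ hρ hρ1 S a
    set n0 : ℕ := Finset.univ.sup (fun j => (next j).calls) with hn0
    have hn : ∀ j, (next j).calls ≤ n0 := fun j =>
      Finset.le_sup (f := fun j => (next j).calls) (Finset.mem_univ j)
    have hcalls : ((MProg.call m W hW U s₀ out next).calls : ℝ) = n0 + 1 := by
      show ((Finset.univ.sup (fun j => (next j).calls) + 1 : ℕ) : ℝ) = _
      rw [← hn0]; push_cast; ring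
    have hcast : ∀ j, ((next j).calls : ℝ) ≤ n0 := fun j => by exact_mod_cast hn j
    obtain ⟨mg, hmg0, hmgA, hmg⟩ := h2 N T q r m M hT hq hr b hb hb1 W hW U s₀ ρ hρ hρ1
    obtain ⟨t, ht1, ht2, ht3⟩ := h1 N c T mg hmg0
      (fun x => ((MProg.call m W hW U s₀ out next).prob x ρ).re) (b ^ 2) (n0 * k0)
      (e0 + n0 * e0) (by positivity) (by positivity) (by
        intro S a hl
        have hv := hmg S a hl
        set R : Fin c → (Fin N → Bool) → Matrix (Fin M) (Fin M) ℂ := fun j x =>
          RR W U s₀ ρ (Finset.univ.filter (fun s => out s = j)) x with hR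
        have hRp : ∀ j x, (R j x).PosSemidef := fun j x => RR_psd W U s₀ ρ hρ _ x
        have hBp : ∀ j, (Rb S a (R j)).PosSemidef := fun j => Rb_psd S a (R j) (hRp j)
        set w : Fin c → ℝ := fun j => (Rb S a (R j)).trace.re with hw
        have hw0 : ∀ j, 0 ≤ w j := fun j => (Complex.le_def.mp (hBp j).trace_nonneg).1
        have hwt : ∀ j, (Rb S a (R j)).trace = (w j : ℂ) := by
          intro j
          have h5 := (Complex.le_def.mp (hBp j).trace_nonneg).2
          refine Complex.ext rfl ?_
          rw [Complex.ofReal_im, ← h5]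
          rfl
        have hw1 : ∑ j, w j = 1 := by
          have h5 : ((∑ j, w j : ℝ) : ℂ) = 1 := by
            push_cast
            rw [← Rb_trace_sum S a R (fun y => RR_trace h4 W U s₀ ρ hρ1 out y)]
            exact Finset.sum_congr rfl fun j _ => (hwt j).symm
          exact_mod_cast h5
        set σ : Fin c → Matrix (Fin M) (Fin M) ℂ := fun j =>
          if w j = 0 then ρ else ((w j)⁻¹ : ℂ) • Rb S a (R j) with hσ
        have hσp : ∀ j, (σ j).PosSemidef := by
          intro j
          simp only [hσ]
          split_ifs with h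
          · exact hρ
          · refine (hBp j).smul ?_
            rw [← Complex.ofReal_inv]
            exact Complex.zero_le_real.mpr (inv_nonneg.mpr (hw0 j))
        have hσ1 : ∀ j, (σ j).trace = 1 := by
          intro j
          simp only [hσ]
          split_ifs with h
          · exact hρ1
          · rw [Matrix.trace_smul, hwt, smul_eq_mul]
            exact inv_mul_cancel₀ (by exact_mod_cast h)
        have hσe : ∀ j x, w j * ((next j).prob x (σ j)).re =
            ((next j).prob x (Rb S a (R j))).re := by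
          intro j x
          by_cases h : w j = 0
          · have h5 := (h3 N T q r c M (next j) x).2.2.2 _ (hBp j)
            have h6 : ((next j).prob x (Rb S a (R j))).re ≤ w j := h5.2.2
            rw [h, zero_mul]
            rw [h] at h6
            exact le_antisymm h5.1 h6
          · have h5 : σ j = ((w j)⁻¹ : ℂ) • Rb S a (R j) := by
              simp only [hσ, if_neg h]
            rw [h5, (h3 N T q r c M (next j) x).2.2.1, ← Complex.ofReal_inv,
              Complex.re_ofReal_mul, ← mul_assoc, mul_inv_cancel₀ h, one_mul]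
        choose tt ht1 ht2 ht3 using fun j => ih j (σ j) (hσp j) (hσ1 j) S a
        refine ⟨RT.flip w tt, ⟨hw0, hw1, ht1⟩, ?_, ?_⟩
        · calc Ex S a (RT.flip w tt).cost = ∑ j, w j * Ex S a (tt j).cost := by
                unfold Ex
                simp only [RT.cost]
                rw [EE_sum]
                exact Finset.sum_congr rfl fun j _ => EE_mul _ _
            _ ≤ ∑ j, w j * (n0 * k0) := by
                refine Finset.sum_le_sum fun j _ => mul_le_mul_of_nonneg_left ?_ (hw0 j)
                exact (ht2 j).trans (mul_le_mul_of_nonneg_right (hcast j) hk00)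
            _ = n0 * k0 := by rw [← Finset.sum_mul, hw1, one_mul]
        · have hpt : ∀ x, |((MProg.call m W hW U s₀ out next).prob x ρ).re -
              (RT.flip w tt).ev x| ≤
              (∑ j, ∑ μ, ∑ ν, ‖R j x μ ν - Rb S a (R j) μ ν‖) +
              ∑ j, w j * |((next j).prob x (σ j)).re - (tt j).ev x| := by
            intro x
            have h5 : ((MProg.call m W hW U s₀ out next).prob x ρ).re - (RT.flip w tt).ev x =
                (∑ j, ((next j).prob x (R j x - Rb S a (R j))).re) +
                ∑ j, w j * (((next j).prob x (σ j)).re - (tt j).ev x) := by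
              rw [prob_call h3, Complex.re_sum]
              simp only [RT.ev]
              rw [← Finset.sum_sub_distrib, ← Finset.sum_add_distrib]
              refine Finset.sum_congr rfl fun j _ => ?_
              rw [mul_sub, hσe, prob_sub h3, Complex.sub_re]
              ring
            rw [h5]
            refine (abs_add_le _ _).trans (add_le_add ?_ ?_)
            · refine (Finset.abs_sum_le_sum_abs _ _).trans (Finset.sum_le_sum fun j _ => ?_)
              refine (Complex.abs_re_le_norm _).trans ?_
              exact (h3 N T q r c M (next j) x).1 (R j x - Rb S a (R j))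
            · refine (Finset.abs_sum_le_sum_abs _ _).trans (Finset.sum_le_sum fun j _ => ?_)
              rw [abs_mul, abs_of_nonneg (hw0 j)]
          calc Ex S a (fun x => |((MProg.call m W hW U s₀ out next).prob x ρ).re -
                (RT.flip w tt).ev x|)
              ≤ Ex S a (fun x => (∑ j, ∑ μ, ∑ ν, ‖R j x μ ν - Rb S a (R j) μ ν‖) +
                ∑ j, w j * |((next j).prob x (σ j)).re - (tt j).ev x|) :=
                EE_mono fun x => hpt _
            _ = (∑ j, ∑ μ, ∑ ν, Ex S a (fun x => ‖R j x μ ν - Rb S a (R j) μ ν‖)) +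
                ∑ j, w j * Ex S a (fun x => |((next j).prob x (σ j)).re - (tt j).ev x|) := by
                unfold Ex
                rw [EE_add, EE_sum, EE_sum]
                congr 1
                · refine Finset.sum_congr rfl fun j _ => ?_
                  rw [EE_sum]
                  refine Finset.sum_congr rfl fun μ _ => ?_
                  rw [EE_sum]
                · exact Finset.sum_congr rfl fun j _ => EE_mul _ _
            _ ≤ (∑ j : Fin c, ∑ μ : Fin M, ∑ ν : Fin M, 2 * Real.sqrt D) +
                ∑ j, w j * (n0 * e0) := by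
                refine add_le_add ?_ ?_
                · refine Finset.sum_le_sum fun j _ => Finset.sum_le_sum fun μ _ =>
                    Finset.sum_le_sum fun ν _ => ?_
                  exact hv _ μ ν
                · refine Finset.sum_le_sum fun j _ => mul_le_mul_of_nonneg_left ?_ (hw0 j)
                  exact (ht3 j).trans (mul_le_mul_of_nonneg_right (hcast j) he00)
            _ = e0 + n0 * e0 := by
                have hs : ∑ j, w j * (n0 * e0) = n0 * e0 := by
                  rw [← Finset.sum_mul, hw1, one_mul]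
                rw [hs]
                simp only [Finset.sum_const, Finset.card_univ, Fintype.card_fin, nsmul_eq_mul]
                rw [he0]
                push_cast
                ring) S a
    refine ⟨t, ht1, ?_, ?_⟩
    · rw [hcalls]
      have h5 : AA mg T S a / b ^ 2 ≤ k0 := by
        rw [hk0]
        have := hmgA S a
        gcongr
      calc Ex S a t.cost ≤ _ := ht2
        _ ≤ n0 * k0 + k0 := by linarith
        _ = (n0 + 1) * k0 := by ring
    · rw [hcalls]
      refine ht3.trans (le_of_eq ?_)
      ring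

end Pool.Agent.W920.HM
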